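import Mathlib
import Pool.Agent.W654.Kron

set_option autoImplicit false

/-!
Fast null sequences in a countable subgroup of the circle: the topology of uniform convergence on
the sequence, joined with the Bohr topology, has no new characters.
-/

namespace Pool.Agent.V1140.ZT

open Filter Topology

/-- The circle. -/
abbrev T : Type := UnitAddCircle

theorem exists_lift (t : T) : ∃ r : ℝ, (r : T) = t ∧ |r| = ‖t‖ := by
  induction t using QuotientAddGroup.induction_on with
  | H z =>
    refine ⟨z - round z, ?_, ?_⟩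
    · have : ((z - round z : ℝ) : T) = (z : T) - ((round z : ℝ) : T) := rfl
      have h2 : ((round z : ℝ) : T) = 0 := by
        rw [AddCircle.coe_eq_zero_iff]
        exact ⟨round z, by simp⟩
      rw [this, h2, sub_zero]
    · exact (UnitAddCircle.norm_eq).symm

theorem norm_coe_of_abs_le {r : ℝ} (h : |r| ≤ 1 / 2) : ‖(r : T)‖ = |r| := by
  have := (AddCircle.norm_eq_of_zero (x := r))
  rw [AddCircle.norm_coe_eq_abs_iff (1 : ℝ) one_ne_zero]
  simpa using h

theorem norm_coe_le (r : ℝ) : ‖(r : T)‖ ≤ |r| := by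
  rw [UnitAddCircle.norm_eq]
  have := round_le r 0
  simpa using this

/-- characters of a finitely generated precompact topology -/
theorem dual (s : Finset T) (x : T) (ε : ℝ) (hε : 0 < ε)
    (hx : ∀ k : ℤ, (∀ g ∈ s, ‖k • g‖ ≤ ε) → ‖k • x‖ ≤ 1 / 8) :
    x ∈ AddSubgroup.closure (s : Set T) := by
  classical
  by_contra hxs
  obtain ⟨y, hy1, hy2⟩ : ∃ y : T, (∀ m : ℤ, m • x ∈ AddSubgroup.closure (s : Set T) → m • y = 0) ∧
      1 / 3 ≤ ‖y‖ := by
    by_cases hm : ∃ m : ℕ, 0 < m ∧ m • x ∈ AddSubgroup.closure (s : Set T)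
    · set m := Nat.find hm with hmdef
      obtain ⟨hm0, hmx⟩ := Nat.find_spec hm
      rw [← hmdef] at hm0 hmx
      have hmin : ∀ j : ℕ, 0 < j → j < m → j • x ∉ AddSubgroup.closure (s : Set T) := by
        intro j hj hjm hjx
        exact Nat.find_min hm hjm ⟨hj, hjx⟩
      have hm2 : 2 ≤ m := by
        by_contra hlt
        have : m = 1 := by omega
        rw [this, one_smul] at hmx
        exact hxs hmx
      refine ⟨(((m / 2 : ℕ) : ℝ) / m : ℝ), ?_, ?_⟩
      · intro k hk
        have hdvd : (m : ℤ) ∣ k := by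
          have hmod : (k % (m : ℤ)) • x ∈ AddSubgroup.closure (s : Set T) := by
            have : (k % (m : ℤ)) • x = k • x - (k / (m : ℤ)) • ((m : ℤ) • x) := by
              rw [← mul_smul, ← sub_smul]
              congr 1
              have := Int.emod_add_mul_ediv k m
              linarith [mul_comm (m : ℤ) (k / m)]
            rw [this]
            refine AddSubgroup.sub_mem _ hk (AddSubgroup.zsmul_mem _ ?_ _)
            simpa using hmx
          have h1 : 0 ≤ k % (m : ℤ) := Int.emod_nonneg _ (by positivity)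
          have h2 : k % (m : ℤ) < m := Int.emod_lt_of_pos _ (by exact_mod_cast hm0)
          obtain ⟨j, hj⟩ := Int.eq_ofNat_of_zero_le h1
          rw [hj] at hmod h2
          by_cases hj0 : j = 0
          · rw [hj0] at hj
            exact Int.dvd_of_emod_eq_zero (by simpa using hj)
          · exact absurd (by simpa using hmod) (hmin j (by omega) (by exact_mod_cast h2))
        obtain ⟨c, hc⟩ := hdvd
        have : (k • ((((m / 2 : ℕ) : ℝ) / m : ℝ) : T)) = ((k * (((m / 2 : ℕ) : ℝ) / m) : ℝ) : T) := by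
          rw [← AddCircle.coe_zsmul]; simp
        rw [this, AddCircle.coe_eq_zero_iff]
        refine ⟨c * (m / 2 : ℕ), ?_⟩
        have hm' : (m : ℝ) ≠ 0 := by positivity
        rw [hc, zsmul_eq_mul, mul_one]
        have e1 : ((c * ((m / 2 : ℕ) : ℤ) : ℤ) : ℝ) = (c : ℝ) * ((m / 2 : ℕ) : ℝ) := by
          rw [Int.cast_mul, Int.cast_natCast]
        have e2 : (((m : ℤ) * c : ℤ) : ℝ) = (m : ℝ) * c := by
          rw [Int.cast_mul, Int.cast_natCast]
        rw [e1, e2]
        field_simp
      · have hm' : (0 : ℝ) < m := by positivity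
        have hhalf : ((m / 2 : ℕ) : ℝ) ≤ m / 2 := Nat.cast_div_le
        have hge : (m : ℝ) / 3 ≤ ((m / 2 : ℕ) : ℝ) := by
          have : m ≤ 3 * (m / 2) := by omega
          have : (m : ℝ) ≤ 3 * ((m / 2 : ℕ) : ℝ) := by exact_mod_cast this
          linarith
        have hnn : 0 ≤ (((m / 2 : ℕ) : ℝ) / m : ℝ) := by positivity
        rw [norm_coe_of_abs_le, abs_of_nonneg hnn]
        · rw [le_div_iff₀ hm']; linarith
        · rw [abs_of_nonneg hnn, div_le_iff₀ hm']; linarith
    · push Not at hm
      refine ⟨((1 / 2 : ℝ) : T), ?_, ?_⟩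
      · intro k hk
        have : k = 0 := by
          by_contra hk0
          have h3 : (k.natAbs) • x ∈ AddSubgroup.closure (s : Set T) := by
            have : (k.natAbs : ℤ) • x ∈ AddSubgroup.closure (s : Set T) := by
              rcases Int.natAbs_eq k with h | h
              · rw [← h]; exact hk
              · have : (k.natAbs : ℤ) = - k := by omega
                rw [this, neg_smul]
                exact AddSubgroup.neg_mem _ hk
            rwa [natCast_zsmul] at this
          exact hm _ (Int.natAbs_pos.mpr hk0) h3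
        simp [this]
      · rw [norm_coe_of_abs_le (by rw [abs_of_pos (by norm_num)])]
        rw [abs_of_pos (by norm_num)]; norm_num
  let z : Option s → T := fun o => o.elim x (fun g => (g : T))
  let w : Option s → T := fun o => o.elim y (fun _ => 0)
  obtain ⟨n, hn⟩ := Pool.Agent.W654.Kron.kronecker (d := Option s) z w (by
    intro k hk
    rw [Fintype.sum_option] at hk ⊢
    have h1 : k none • y = 0 := by
      apply hy1
      have : k none • x = - ∑ i : s, k (some i) • (i : T) := by
        rw [eq_neg_iff_add_eq_zero]; exact hk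
      rw [this]
      refine AddSubgroup.neg_mem _ (AddSubgroup.sum_mem _ fun i _ => ?_)
      exact AddSubgroup.zsmul_mem _ (AddSubgroup.subset_closure i.2) _
    simp [w, h1]) (min ε (1 / 8)) (lt_min hε (by norm_num))
  have hcoord : ∀ o : Option s, ‖(n : ℤ) • z o - w o‖ < min ε (1 / 8) := by
    intro o
    rw [dist_eq_norm] at hn
    have := (norm_le_pi_norm (n • z - w) o).trans_lt hn
    simpa using this
  have h1 := hx n (fun g hg => by
    have := (hcoord (some ⟨g, hg⟩)).le.trans (min_le_left _ _)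
    simpa [z, w] using this)
  have h2 := (hcoord none).le.trans (min_le_right _ _)
  have h3 : ‖y‖ ≤ ‖(n : ℤ) • x‖ + ‖(n : ℤ) • x - y‖ := by
    have := norm_sub_norm_le ((n : ℤ) • x - ((n : ℤ) • x - y)) 0
    have e : (n : ℤ) • x - ((n : ℤ) • x - y) = y := by abel
    calc ‖y‖ = ‖(n : ℤ) • x - ((n : ℤ) • x - y)‖ := by rw [e]
      _ ≤ _ := norm_sub_le _ _
  have h4 : ‖(n : ℤ) • x - y‖ ≤ 1 / 8 := h2
  linarith

/-- recurrence with bounded gaps -/
theorem recurR (s : Finset T) (ε : ℝ) (hε : 0 < ε) :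
    ∃ R : ℝ, 0 ≤ R ∧ ∀ k a : ℤ, ∃ k' : ℤ, |(k' : ℝ) - a| ≤ R ∧ ∀ g ∈ s, ‖(k - k') • g‖ ≤ ε := by
  classical
  let z : s → T := fun g => (g : T)
  have htb : TotallyBounded (Set.range (fun k : ℤ => k • z)) :=
    TotallyBounded.subset (Set.subset_univ _) isCompact_univ.totallyBounded
  obtain ⟨t, hts, htf, hcov⟩ := Metric.finite_approx_of_totallyBounded htb ε hε
  have hts' : ∀ y ∈ t, ∃ c : ℤ, c • z = y := fun y hy => hts hy
  choose! c hc using hts'
  obtain ⟨R, hR⟩ : ∃ R : ℝ, ∀ y ∈ t, |(c y : ℝ)| ≤ R := by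
    obtain ⟨R, hR⟩ := (htf.image (fun y => |(c y : ℝ)|)).bddAbove
    exact ⟨R, fun y hy => hR ⟨y, hy, rfl⟩⟩
  refine ⟨max R 0, le_max_right _ _, fun k a => ?_⟩
  have hmem := hcov ⟨k - a, rfl⟩
  simp only [Set.mem_iUnion, Metric.mem_ball, exists_prop] at hmem
  obtain ⟨y, hyt, hy⟩ := hmem
  refine ⟨a + c y, ?_, ?_⟩
  · push_cast
    rw [add_sub_cancel_left]
    exact (hR y hyt).trans (le_max_left _ _)
  · intro g hg
    have h1 : c y • z = y := hc y hyt
    rw [← h1, dist_eq_norm] at hy
    have h2 := (norm_le_pi_norm ((k - a) • z - c y • z) ⟨g, hg⟩).trans hy.le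
    have h3 : ((k - a) • z - c y • z) ⟨g, hg⟩ = (k - (a + c y)) • g := by
      simp only [Pi.sub_apply, Pi.smul_apply, z]
      rw [← sub_smul]
      congr 1
      ring
    rwa [h3] at h2

end Pool.Agent.V1140.ZT
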