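import Pool.Agent.V1140.ZT.Basic

set_option autoImplicit false

/-!
The compatibility theorem for fast null sequences.
-/

namespace Pool.Agent.V1140.ZT

open Filter Topology

/-- the tolerance at level `n` -/
noncomputable def eps (n : ℕ) : ℝ := (1 / 2) ^ n

theorem eps_pos (n : ℕ) : 0 < eps n := by unfold eps; positivity

theorem eps_succ (n : ℕ) : eps (n + 1) = eps n / 2 := by unfold eps; ring

theorem eps_anti {m n : ℕ} (h : m ≤ n) : eps n ≤ eps m := by
  unfold eps
  exact pow_le_pow_of_le_one (by norm_num) (by norm_num) h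

theorem eps_le_one (n : ℕ) : eps n ≤ 1 := by
  have := eps_anti (Nat.zero_le n)
  simpa [eps] using this

/-- fast null sequences `h`, for an enumeration `γ` of characters -/
structure Fast (γ h : ℕ → T) : Prop where
  ne : ∀ n, h n ≠ 0
  dec : ∀ n, ‖h (n + 1)‖ ≤ eps (n + 1) * ‖h n‖
  rec' : ∀ n, ∃ R : ℝ, 0 ≤ R ∧ (R + 1) * ‖h n‖ ≤ eps (n + 1) ∧ ∀ k a : ℤ, ∃ k' : ℤ,
    |(k' : ℝ) - a| ≤ R ∧ (∀ i ≤ n, ‖(k - k') • γ i‖ ≤ eps (n + 1)) ∧
      ∀ j < n, ‖(k - k') • h j‖ ≤ eps (n + 1)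

variable {γ h : ℕ → T}

theorem Fast.norm_pos (hf : Fast γ h) (n : ℕ) : 0 < ‖h n‖ := norm_pos_iff.mpr (hf.ne n)

theorem Fast.anti (hf : Fast γ h) {m n : ℕ} (hmn : m ≤ n) : ‖h n‖ ≤ ‖h m‖ := by
  induction n, hmn using Nat.le_induction with
  | base => exact le_rfl
  | succ n _ ih =>
    refine (hf.dec n).trans ?_
    have h1 := eps_le_one (n + 1)
    have h2 := norm_nonneg (h n)
    nlinarith

theorem Fast.lt_le (hf : Fast γ h) {m n : ℕ} (hmn : m < n) : ‖h n‖ ≤ eps (m + 1) * ‖h m‖ :=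
  (hf.anti (show m + 1 ≤ n from hmn)).trans (hf.dec m)

theorem Fast.le_eps (hf : Fast γ h) (n : ℕ) : ‖h n‖ ≤ eps (n + 1) := by
  obtain ⟨R, hR0, hR, -⟩ := hf.rec' n
  have := norm_nonneg (h n)
  nlinarith

theorem zsmul_norm_le (u : ℤ) (g : T) : ‖u • g‖ ≤ |(u : ℝ)| * ‖g‖ := by
  have := norm_zsmul_le u g
  rwa [Int.norm_eq_abs] at this

/-- elements of level `m` -/
def Lev (γ h : ℕ → T) (δ : ℝ) (m : ℕ) (u : ℤ) : Prop :=
  (∀ i < m, ‖u • γ i‖ ≤ 3 * eps m) ∧ (∀ j < m, ‖u • h j‖ ≤ 3 * eps m) ∧ |(u : ℝ)| * ‖h m‖ ≤ δ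

theorem Lev.neg {δ : ℝ} {m : ℕ} {u : ℤ} (hu : Lev γ h δ m u) : Lev γ h δ m (-u) := by
  refine ⟨fun i hi => ?_, fun j hj => ?_, ?_⟩
  · rw [neg_smul, norm_neg]; exact hu.1 i hi
  · rw [neg_smul, norm_neg]; exact hu.2.1 j hj
  · have := hu.2.2
    simpa using this

theorem Lev.zero {δ : ℝ} (hδ : 0 < δ) (m : ℕ) : Lev γ h δ m 0 := by
  have := eps_pos m
  refine ⟨fun i _ => ?_, fun j _ => ?_, ?_⟩
  · simp; linarith
  · simp; linarith
  · simp; linarith

theorem Lev.h_ne (hf : Fast γ h) {δ : ℝ} (hδ1 : δ ≤ 1) {m j : ℕ} {u : ℤ} (hu : Lev γ h δ m u)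
    (hj : j ≠ m) : ‖u • h j‖ ≤ 3 * eps m := by
  rcases lt_or_gt_of_ne hj with h1 | h1
  · exact hu.2.1 j h1
  · have h2 := hf.lt_le h1
    have h3 := zsmul_norm_le u (h j)
    have h4 := hu.2.2
    have h5 := abs_nonneg (u : ℝ)
    have h6 := eps_pos m
    have h7 := eps_succ m
    have h8 : |(u : ℝ)| * ‖h j‖ ≤ |(u : ℝ)| * (eps (m + 1) * ‖h m‖) :=
      mul_le_mul_of_nonneg_left h2 h5
    have h9 : |(u : ℝ)| * (eps (m + 1) * ‖h m‖) = eps (m + 1) * (|(u : ℝ)| * ‖h m‖) := by ring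
    have h10 : eps (m + 1) * (|(u : ℝ)| * ‖h m‖) ≤ eps (m + 1) * δ :=
      mul_le_mul_of_nonneg_left h4 (eps_pos _).le
    have h11 : eps (m + 1) * δ ≤ eps (m + 1) * 1 :=
      mul_le_mul_of_nonneg_left hδ1 (eps_pos _).le
    linarith

theorem Lev.h_eq {δ : ℝ} {m : ℕ} {u : ℤ} (hu : Lev γ h δ m u) : ‖u • h m‖ ≤ δ :=
  (zsmul_norm_le u _).trans hu.2.2

theorem sum_eps (n0 M : ℕ) : ∑ m ∈ Finset.Ico n0 M, 3 * eps m ≤ 6 * eps n0 := by
  have key : ∀ M, n0 ≤ M → ∑ m ∈ Finset.Ico n0 M, 3 * eps m ≤ 6 * eps n0 - 6 * eps M := by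
    intro M hM
    induction M, hM using Nat.le_induction with
    | base => simp
    | succ M hM ih =>
      rw [Finset.sum_Ico_succ_top hM]
      have := eps_succ M
      linarith
  rcases le_or_gt n0 M with h1 | h1
  · have := key M h1
    have := eps_pos M
    linarith
  · rw [Finset.Ico_eq_empty_of_le h1.le, Finset.sum_empty]
    have := eps_pos n0
    linarith

/-- sums of elements of different levels -/
theorem level_sum (hf : Fast γ h) {δ : ℝ} (hδ1 : δ ≤ 1) {n0 : ℕ}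
    (hn0 : 6 * eps n0 ≤ δ) (u : ℕ → ℤ) (M : ℕ) (hu : ∀ m ∈ Finset.Ico n0 M, Lev γ h δ m (u m)) :
    (∀ n, ‖(∑ m ∈ Finset.Ico n0 M, u m) • h n‖ ≤ 2 * δ) ∧
      ∀ i < n0, ‖(∑ m ∈ Finset.Ico n0 M, u m) • γ i‖ ≤ 2 * δ := by
  classical
  have hδ : 0 ≤ δ := le_trans (by have := eps_pos n0; positivity) hn0
  have hS := sum_eps n0 M
  constructor
  · intro n
    rw [Finset.sum_smul]
    calc ‖∑ m ∈ Finset.Ico n0 M, u m • h n‖ ≤ ∑ m ∈ Finset.Ico n0 M, ‖u m • h n‖ :=
          norm_sum_le _ _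
      _ ≤ ∑ m ∈ Finset.Ico n0 M, (3 * eps m + if m = n then δ else 0) := by
          refine Finset.sum_le_sum fun m hm => ?_
          by_cases hmn : m = n
          · rw [if_pos hmn, ← hmn]
            have := (hu m hm).h_eq
            have := eps_pos m
            linarith
          · rw [if_neg hmn, add_zero]
            exact (hu m hm).h_ne hf hδ1 (fun h => hmn h.symm)
      _ ≤ 6 * eps n0 + δ := by
          rw [Finset.sum_add_distrib]
          refine add_le_add hS ?_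
          rw [Finset.sum_ite_eq']
          split_ifs <;> linarith
      _ ≤ 2 * δ := by linarith
  · intro i hi
    rw [Finset.sum_smul]
    calc ‖∑ m ∈ Finset.Ico n0 M, u m • γ i‖ ≤ ∑ m ∈ Finset.Ico n0 M, ‖u m • γ i‖ :=
          norm_sum_le _ _
      _ ≤ ∑ m ∈ Finset.Ico n0 M, 3 * eps m := by
          refine Finset.sum_le_sum fun m hm => ?_
          exact (hu m hm).1 i (lt_of_lt_of_le hi (Finset.mem_Ico.mp hm).1)
      _ ≤ 2 * δ := by linarith

/-- extremal elements -/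
theorem exists_max (hf : Fast γ h) {δ : ℝ} (hδ : 0 < δ) (x : T) (m : ℕ) :
    ∃ (u : ℤ) (r : ℝ), Lev γ h δ m u ∧ 0 ≤ r ∧ r = ‖u • x‖ ∧ (r : T) = u • x ∧
      ∀ v, Lev γ h δ m v → ‖v • x‖ ≤ r := by
  have hfin : {u : ℤ | Lev γ h δ m u}.Finite := by
    have hpos := hf.norm_pos m
    refine (Set.finite_Icc (-⌈δ / ‖h m‖⌉) ⌈δ / ‖h m‖⌉).subset fun u hu => ?_
    have h1 := hu.2.2
    have h2 : |(u : ℝ)| ≤ δ / ‖h m‖ := by rwa [le_div_iff₀ hpos]
    have h3 : |(u : ℝ)| ≤ ⌈δ / ‖h m‖⌉ := h2.trans (Int.le_ceil _)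
    have h4 : |u| ≤ ⌈δ / ‖h m‖⌉ := by exact_mod_cast h3
    exact ⟨(abs_le.mp h4).1, (abs_le.mp h4).2⟩
  obtain ⟨u, hu, hmax⟩ := Set.exists_max_image {u : ℤ | Lev γ h δ m u} (fun u => ‖u • x‖) hfin
    ⟨0, Lev.zero hδ m⟩
  obtain ⟨r, hr1, hr2⟩ := exists_lift (u • x)
  rcases le_or_gt 0 r with h0 | h0
  · refine ⟨u, r, hu, h0, ?_, hr1, ?_⟩
    · rw [← hr2, abs_of_nonneg h0]
    · intro v hv
      rw [← abs_of_nonneg h0, hr2]
      exact hmax v hv
  · refine ⟨-u, -r, Lev.neg hu, by linarith, ?_, ?_, ?_⟩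
    · rw [neg_smul, norm_neg, ← hr2, abs_of_neg h0]
    · rw [neg_smul, ← hr1]; rfl
    · intro v hv
      rw [← abs_of_neg h0, hr2]
      exact hmax v hv

/-- one step of the decomposition -/
theorem step (hf : Fast γ h) {δ : ℝ} (hδ : 0 < δ) {C : ℕ} (hC : 2 / δ ≤ C) (hC0 : 0 < C)
    (x : T) (m : ℕ) (hm : 4 * eps m ≤ δ) {r : ℝ} (hr : ∀ v, Lev γ h δ m v → ‖v • x‖ ≤ r)
    (k : ℤ) (hk1 : ∀ i < m, ‖k • γ i‖ ≤ eps m) (hk2 : ∀ j < m, ‖k • h j‖ ≤ eps m) :
    ∃ k' : ℤ, (∀ i < m + 1, ‖(k - k') • γ i‖ ≤ eps (m + 1)) ∧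
      (∀ j < m + 1, ‖(k - k') • h j‖ ≤ eps (m + 1)) ∧ |(k' : ℝ)| * ‖h m‖ ≤ 1 ∧
      ‖k' • x‖ ≤ C * r := by
  obtain ⟨R, hR0, hR, hrec⟩ := hf.rec' m
  obtain ⟨t, ht1, ht2⟩ := exists_lift (h m)
  obtain ⟨θ, hθ1, hθ2⟩ := exists_lift (k • h m)
  have hpos := hf.norm_pos m
  have hes := eps_succ m
  have hep := eps_pos m
  have ht0 : t ≠ 0 := by
    intro h0
    rw [h0] at ht2
    rw [abs_zero] at ht2
    linarith
  have hθ3 : |θ| ≤ 1 / 2 := by
    rw [hθ2]
    have := AddCircle.norm_le_half_period (1 : ℝ) (x := k • h m) one_ne_zero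
    simpa using this
  set a : ℤ := ⌊θ / t⌋ with ha
  have ha1 : |(a : ℝ) - θ / t| ≤ 1 := by
    have h1 := Int.floor_le (θ / t)
    have h2 := Int.lt_floor_add_one (θ / t)
    rw [abs_le]
    constructor <;> linarith
  obtain ⟨k', hk'1, hk'2, hk'3⟩ := hrec k a
  have hθt : |θ / t| * ‖h m‖ ≤ 1 / 2 := by
    rw [abs_div, ht2, div_mul_cancel₀ _ hpos.ne']
    exact hθ3
  have habs : |(k' : ℝ)| ≤ |θ / t| + (R + 1) := by
    have e : (k' : ℝ) = ((k' : ℝ) - a) + ((a : ℝ) - θ / t) + θ / t := by ring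
    have h1 : |(k' : ℝ)| ≤ |((k' : ℝ) - a) + ((a : ℝ) - θ / t)| + |θ / t| := by
      calc |(k' : ℝ)| = |((k' : ℝ) - a) + ((a : ℝ) - θ / t) + θ / t| := by rw [← e]
        _ ≤ _ := abs_add_le _ _
    have h2 := abs_add_le ((k' : ℝ) - a) ((a : ℝ) - θ / t)
    linarith
  have hk'4 : |(k' : ℝ)| * ‖h m‖ ≤ 1 := by
    have h1 : |(k' : ℝ)| * ‖h m‖ ≤ (|θ / t| + (R + 1)) * ‖h m‖ :=
      mul_le_mul_of_nonneg_right habs hpos.le
    have h2 : eps (m + 1) ≤ 1 / 2 := by rw [hes]; have := eps_le_one m; linarith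
    nlinarith
  refine ⟨k', fun i hi => hk'2 i (by omega), fun j hj => ?_, hk'4, ?_⟩
  · rcases Nat.lt_succ_iff_lt_or_eq.mp hj with h1 | h1
    · exact hk'3 j h1
    · subst h1
      have e : (k - k') • h j = (((θ / t - k') * t : ℝ) : T) := by
        rw [sub_smul, ← hθ1, ← ht1, ← AddCircle.coe_zsmul, ← AddCircle.coe_sub]
        congr 1
        rw [zsmul_eq_mul]
        field_simp
      rw [e]
      refine (norm_coe_le _).trans ?_
      rw [abs_mul, ht2]
      have h3 : |θ / t - k'| ≤ R + 1 := by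
        have e2 : θ / t - k' = -((k' : ℝ) - a) + -((a : ℝ) - θ / t) := by ring
        rw [e2]
        refine (abs_add_le _ _).trans ?_
        rw [abs_neg, abs_neg]
        linarith
      exact (mul_le_mul_of_nonneg_right h3 hpos.le).trans hR
  · -- splitting into pieces
    have hCr : (0 : ℝ) < C := by exact_mod_cast hC0
    have hchoose : ∀ i : ℕ, ∃ b : ℤ, |(b : ℝ) - ⌊(i : ℝ) * k' / C⌋| ≤ R ∧
        (∀ l < m, ‖b • γ l‖ ≤ 3 / 2 * eps m) ∧ (∀ j < m, ‖b • h j‖ ≤ 3 / 2 * eps m) ∧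
        (i = 0 → b = 0) ∧ (i = C → b = k') := by
      intro i
      by_cases hi0 : i = 0
      · refine ⟨0, ?_, ?_, ?_, fun _ => rfl, fun h => by omega⟩
        · simp [hi0, hR0]
        · intro l _; simp; linarith
        · intro j _; simp; linarith
      by_cases hiC : i = C
      · refine ⟨k', ?_, ?_, ?_, fun h => by omega, fun _ => rfl⟩
        · have : (i : ℝ) * k' / C = (k' : ℝ) := by rw [hiC]; field_simp
          rw [this, Int.floor_intCast]
          simpa using hR0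
        · intro l hl
          have e : k' • γ l = k • γ l - (k - k') • γ l := by
            rw [← sub_smul]; congr 1; ring
          rw [e]
          refine (norm_sub_le _ _).trans ?_
          have := hk1 l hl
          have := hk'2 l (by omega)
          linarith
        · intro j hj
          have e : k' • h j = k • h j - (k - k') • h j := by
            rw [← sub_smul]; congr 1; ring
          rw [e]
          refine (norm_sub_le _ _).trans ?_
          have := hk2 j hj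
          have := hk'3 j hj
          linarith
      · obtain ⟨b, hb1, hb2, hb3⟩ := hrec 0 ⌊(i : ℝ) * k' / C⌋
        refine ⟨b, hb1, ?_, ?_, fun h => absurd h hi0, fun h => absurd h hiC⟩
        · intro l hl
          have := hb2 l (by omega)
          rw [zero_sub, neg_smul, norm_neg] at this
          linarith
        · intro j hj
          have := hb3 j hj
          rw [zero_sub, neg_smul, norm_neg] at this
          linarith
    choose b hb1 hb2 hb3 hb4 hb5 using hchoose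
    have hlev : ∀ i : ℕ, Lev γ h δ m (b (i + 1) - b i) := by
      intro i
      refine ⟨fun l hl => ?_, fun j hj => ?_, ?_⟩
      · rw [sub_smul]
        refine (norm_sub_le _ _).trans ?_
        have := hb2 (i + 1) l hl
        have := hb2 i l hl
        linarith
      · rw [sub_smul]
        refine (norm_sub_le _ _).trans ?_
        have := hb3 (i + 1) j hj
        have := hb3 i j hj
        linarith
      · have hfl : |(⌊((i + 1 : ℕ) : ℝ) * k' / C⌋ : ℝ) - ⌊(i : ℝ) * k' / C⌋| ≤ |(k' : ℝ)| / C + 1 := by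
          have h1 := Int.floor_le (((i + 1 : ℕ) : ℝ) * k' / C)
          have h2 := Int.lt_floor_add_one (((i + 1 : ℕ) : ℝ) * k' / C)
          have h3 := Int.floor_le ((i : ℝ) * k' / C)
          have h4 := Int.lt_floor_add_one ((i : ℝ) * k' / C)
          have e : ((i + 1 : ℕ) : ℝ) * k' / C = (i : ℝ) * k' / C + k' / C := by
            push_cast; ring
          rw [e] at h1 h2
          have h5 : |(k' : ℝ)| / C = |(k' : ℝ) / C| := by rw [abs_div, abs_of_pos hCr]
          rw [h5, e, abs_le]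
          have h6 := neg_abs_le ((k' : ℝ) / C)
          have h7 := le_abs_self ((k' : ℝ) / C)
          constructor <;> linarith
        have h1 := hb1 (i + 1)
        have h2 := hb1 i
        have h3 : |((b (i + 1) - b i : ℤ) : ℝ)| ≤ |(k' : ℝ)| / C + 1 + 2 * R := by
          have e : ((b (i + 1) - b i : ℤ) : ℝ) =
            ((b (i + 1) : ℝ) - ⌊((i + 1 : ℕ) : ℝ) * k' / C⌋) +
            (((⌊((i + 1 : ℕ) : ℝ) * k' / C⌋ : ℝ) - ⌊(i : ℝ) * k' / C⌋) +
              -((b i : ℝ) - ⌊(i : ℝ) * k' / C⌋)) := by push_cast; ring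
          rw [e]
          refine (abs_add_le _ _).trans ?_
          refine (add_le_add_right (abs_add_le _ _) _).trans ?_
          rw [abs_neg]
          linarith
        have h4 : |((b (i + 1) - b i : ℤ) : ℝ)| * ‖h m‖ ≤ (|(k' : ℝ)| / C + 1 + 2 * R) * ‖h m‖ :=
          mul_le_mul_of_nonneg_right h3 hpos.le
        have h5 : (|(k' : ℝ)| / C) * ‖h m‖ ≤ δ / 2 := by
          have h6 : (|(k' : ℝ)| / C) * ‖h m‖ = (|(k' : ℝ)| * ‖h m‖) / C := by ring
          rw [h6, div_le_iff₀ hCr]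
          have h7 : 1 ≤ δ / 2 * C := by
            rw [div_le_iff₀ hδ] at hC
            linarith
          linarith
        nlinarith [mul_nonneg hR0 hpos.le]
    have htel : k' • x = ∑ i ∈ Finset.range C, (b (i + 1) - b i) • x := by
      rw [← Finset.sum_smul, Finset.sum_range_sub, hb5 C rfl, hb4 0 rfl, sub_zero]
    rw [htel]
    refine (norm_sum_le _ _).trans ?_
    refine (Finset.sum_le_sum fun i _ => hr _ (hlev i)).trans ?_
    simp

theorem Lev.cont (hf : Fast γ h) {δ : ℝ} (hδ1 : δ ≤ 1) {n0 m : ℕ} (hm : n0 ≤ m)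
    (hn0 : 6 * eps n0 ≤ δ) {u : ℤ} (hu : Lev γ h δ m u) :
    (∀ n, ‖u • h n‖ ≤ 2 * δ) ∧ ∀ i < n0, ‖u • γ i‖ ≤ 2 * δ := by
  have h1 := eps_anti hm
  have h2 := eps_pos m
  refine ⟨fun n => ?_, fun i hi => ?_⟩
  · by_cases hn : n = m
    · subst hn
      have := hu.h_eq
      linarith
    · have := hu.h_ne hf hδ1 hn
      linarith
  · have := hu.1 i (by omega)
    linarith

/-- **The compatibility theorem.** A character which is continuous for the join of the topology of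
uniform convergence on a fast sequence `h` and the Bohr topology given by `γ` is in the group
generated by `γ` and `h`. -/
theorem compat (hf : Fast γ h) {x : T} {δ : ℝ} (hδ : 0 < δ) {N : ℕ}
    (hx : ∀ k : ℤ, (∀ n, ‖k • h n‖ ≤ δ) → (∀ i < N, ‖k • γ i‖ ≤ δ) → ‖k • x‖ ≤ 1 / 4) :
    x ∈ AddSubgroup.closure (Set.range γ ∪ Set.range h) := by
  classical
  set δ' : ℝ := min (δ / 2) 1 with hδ'
  have hδ'0 : 0 < δ' := lt_min (by linarith) one_pos
  have hδ'1 : δ' ≤ 1 := min_le_right _ _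
  have hδ'2 : 2 * δ' ≤ δ := by have := min_le_left (δ / 2) (1 : ℝ); linarith
  obtain ⟨n0, hNn0, hn0⟩ : ∃ n0 : ℕ, N ≤ n0 ∧ 6 * eps n0 ≤ δ' := by
    obtain ⟨n, hn⟩ := exists_pow_lt_of_lt_one (show 0 < δ' / 6 by positivity)
      (show (1 / 2 : ℝ) < 1 by norm_num)
    refine ⟨max N n, le_max_left _ _, ?_⟩
    have h1 := eps_anti (le_max_right N n)
    have h2 : eps n < δ' / 6 := hn
    linarith
  have hx' : ∀ k : ℤ, (∀ n, ‖k • h n‖ ≤ 2 * δ') → (∀ i < n0, ‖k • γ i‖ ≤ 2 * δ') →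
      ‖k • x‖ ≤ 1 / 4 := fun k h1 h2 => hx k (fun n => (h1 n).trans hδ'2)
    (fun i hi => (h2 i (by omega)).trans hδ'2)
  set C : ℕ := ⌈2 / δ'⌉₊ with hC
  have hC1 : 2 / δ' ≤ C := Nat.le_ceil _
  have hC0 : 0 < C := Nat.ceil_pos.mpr (by positivity)
  have hCr : (0 : ℝ) < C := by exact_mod_cast hC0
  have hC1' : (1 : ℝ) ≤ C := by exact_mod_cast hC0
  choose u r hu hr0 hr1 hr2 hr3 using fun m => exists_max hf hδ'0 x m
  -- partial sums
  have hpart : ∀ M, n0 ≤ M → ∑ m ∈ Finset.Ico n0 M, r m ≤ 1 / 4 := by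
    intro M hM
    induction M, hM using Nat.le_induction with
    | base => simp
    | succ M hM ih =>
      have h1 := level_sum hf hδ'1 hn0 u (M + 1) (fun m _ => hu m)
      have h2 := hx' _ h1.1 h1.2
      have h3 : (∑ m ∈ Finset.Ico n0 (M + 1), u m) • x =
          ((∑ m ∈ Finset.Ico n0 (M + 1), r m : ℝ) : T) := by
        rw [Finset.sum_smul]
        have : ((∑ m ∈ Finset.Ico n0 (M + 1), r m : ℝ) : T) =
            ∑ m ∈ Finset.Ico n0 (M + 1), (r m : T) :=
          map_sum (QuotientAddGroup.mk' (AddSubgroup.zmultiples (1 : ℝ))) _ _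
        rw [this]
        exact Finset.sum_congr rfl fun m _ => (hr2 m).symm
      have h4 := (hu M).cont hf hδ'1 hM hn0
      have h5 := hx' _ h4.1 h4.2
      rw [← hr1 M] at h5
      have h6 : 0 ≤ ∑ m ∈ Finset.Ico n0 (M + 1), r m := Finset.sum_nonneg fun m _ => hr0 m
      have h7 : ∑ m ∈ Finset.Ico n0 (M + 1), r m ≤ 1 / 2 := by
        rw [Finset.sum_Ico_succ_top hM]
        linarith
      rw [h3, norm_coe_of_abs_le (by rw [abs_of_nonneg h6]; exact h7), abs_of_nonneg h6] at h2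
      exact h2
  -- the tail
  obtain ⟨n1, hn01, hn1⟩ : ∃ n1, n0 ≤ n1 ∧ ∀ M, n1 ≤ M →
      C * ∑ m ∈ Finset.Ico n1 M, r m ≤ 1 / 8 := by
    set S : ℕ → ℝ := fun d => ∑ m ∈ Finset.Ico n0 (n0 + d), r m with hS
    have hbdd : BddAbove (Set.range S) := ⟨1 / 4, by
      rintro _ ⟨d, rfl⟩
      exact hpart _ (by omega)⟩
    have hlt : (⨆ d, S d) - 1 / (8 * C) < ⨆ d, S d := by
      have : 0 < 1 / (8 * (C : ℝ)) := by positivity
      linarith
    obtain ⟨d, hd⟩ := exists_lt_of_lt_ciSup hlt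
    refine ⟨n0 + d, by omega, fun M hM => ?_⟩
    have h1 : S (M - n0) ≤ ⨆ d, S d := le_ciSup hbdd _
    have h2 : S (M - n0) = S d + ∑ m ∈ Finset.Ico (n0 + d) M, r m := by
      simp only [hS]
      rw [show n0 + (M - n0) = M by omega]
      rw [Finset.sum_Ico_consecutive _ (by omega) hM]
    have h3 : ∑ m ∈ Finset.Ico (n0 + d) M, r m ≤ 1 / (8 * C) := by linarith
    calc C * ∑ m ∈ Finset.Ico (n0 + d) M, r m ≤ C * (1 / (8 * C)) :=
          mul_le_mul_of_nonneg_left h3 hCr.le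
      _ = 1 / 8 := by field_simp
  -- the decomposition
  have hdec : ∀ d m : ℕ, n1 ≤ m → ∀ k : ℤ, (∀ i < m, ‖k • γ i‖ ≤ eps m) →
      (∀ j < m, ‖k • h j‖ ≤ eps m) → |(k : ℝ)| * ‖h (m + d)‖ ≤ δ' - eps m →
      ‖k • x‖ ≤ C * ∑ j ∈ Finset.Ico m (m + d + 1), r j := by
    intro d
    induction d with
    | zero =>
      intro m hm k h1 h2 h3
      have hep := eps_pos m
      have hlev : Lev γ h δ' m k := by
        refine ⟨fun i hi => ?_, fun j hj => ?_, ?_⟩
        · have := h1 i hi; linarith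
        · have := h2 j hj; linarith
        · rw [add_zero] at h3; linarith
      have h4 := hr3 m k hlev
      have h5 := hr0 m
      rw [add_zero, Finset.sum_Ico_succ_top le_rfl, Finset.Ico_self, Finset.sum_empty, zero_add]
      nlinarith
    | succ d ih =>
      intro m hm k h1 h2 h3
      have hem : 4 * eps m ≤ δ' := by
        have := eps_anti (hn01.trans hm)
        have := eps_pos n0
        linarith
      obtain ⟨k', hk1, hk2, hk3, hk4⟩ := step hf hδ'0 hC1 hC0 x m hem (hr3 m) k h1 h2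
      have h6 : |((k - k' : ℤ) : ℝ)| * ‖h (m + 1 + d)‖ ≤ δ' - eps (m + 1) := by
        have e : m + 1 + d = m + (d + 1) := by ring
        rw [e]
        have h7 : |((k - k' : ℤ) : ℝ)| ≤ |(k : ℝ)| + |(k' : ℝ)| := by
          push_cast
          exact abs_sub _ _
        have h8 := norm_nonneg (h (m + (d + 1)))
        have h9 : ‖h (m + (d + 1))‖ ≤ eps (m + 1) * ‖h m‖ := hf.lt_le (by omega)
        have h10 : |(k' : ℝ)| * ‖h (m + (d + 1))‖ ≤ eps (m + 1) := by
          calc |(k' : ℝ)| * ‖h (m + (d + 1))‖ ≤ |(k' : ℝ)| * (eps (m + 1) * ‖h m‖) :=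
                mul_le_mul_of_nonneg_left h9 (abs_nonneg _)
            _ = eps (m + 1) * (|(k' : ℝ)| * ‖h m‖) := by ring
            _ ≤ eps (m + 1) * 1 := mul_le_mul_of_nonneg_left hk3 (eps_pos _).le
            _ = _ := mul_one _
        have h11 : |((k - k' : ℤ) : ℝ)| * ‖h (m + (d + 1))‖ ≤
            (|(k : ℝ)| + |(k' : ℝ)|) * ‖h (m + (d + 1))‖ := mul_le_mul_of_nonneg_right h7 h8
        have h12 := eps_succ m
        nlinarith
      have h7 := ih (m + 1) (by omega) (k - k') hk1 hk2 h6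
      have e1 : k • x = k' • x + (k - k') • x := by rw [← add_smul]; congr 1; ring
      have e2 : ∑ j ∈ Finset.Ico m (m + (d + 1) + 1), r j =
          r m + ∑ j ∈ Finset.Ico (m + 1) (m + 1 + d + 1), r j := by
        rw [Finset.sum_eq_sum_Ico_succ_bot (by omega)]
        congr 3
        ring
      rw [e1, e2, mul_add]
      refine (norm_add_le _ _).trans ?_
      linarith
  -- conclusion
  have hfin : x ∈ AddSubgroup.closure
      (((Finset.range n1).image γ ∪ (Finset.range n1).image h : Finset T) : Set T) := by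
    refine dual _ x (eps n1) (eps_pos n1) fun k hk => ?_
    have hpos : 0 < δ' - eps n1 := by
      have := eps_anti hn01
      have := eps_pos n0
      linarith
    obtain ⟨d, hd⟩ : ∃ d : ℕ, |(k : ℝ)| * ‖h (n1 + d)‖ ≤ δ' - eps n1 := by
      obtain ⟨n, hn⟩ := exists_pow_lt_of_lt_one
        (show 0 < (δ' - eps n1) / (|(k : ℝ)| + 1) by positivity)
        (show (1 / 2 : ℝ) < 1 by norm_num)
      refine ⟨n, ?_⟩
      have h1 : ‖h (n1 + n)‖ ≤ eps n := (hf.le_eps _).trans (eps_anti (by omega))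
      have h2 : eps n < (δ' - eps n1) / (|(k : ℝ)| + 1) := hn
      rw [lt_div_iff₀ (by positivity)] at h2
      have h3 := abs_nonneg (k : ℝ)
      have h4 := eps_pos n
      have h5 : |(k : ℝ)| * ‖h (n1 + n)‖ ≤ |(k : ℝ)| * eps n := mul_le_mul_of_nonneg_left h1 h3
      nlinarith
    refine (hdec d n1 le_rfl k (fun i hi => hk _ ?_) (fun j hj => hk _ ?_) hd).trans
      (hn1 _ (by omega))
    · rw [Finset.mem_union]
      left
      exact Finset.mem_image_of_mem _ (Finset.mem_range.mpr hi)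
    · rw [Finset.mem_union]
      right
      exact Finset.mem_image_of_mem _ (Finset.mem_range.mpr hj)
  refine AddSubgroup.closure_mono ?_ hfin
  intro y hy
  rw [Finset.coe_union, Set.mem_union, Finset.coe_image, Finset.coe_image] at hy
  rcases hy with ⟨i, -, rfl⟩ | ⟨i, -, rfl⟩
  · exact Or.inl ⟨i, rfl⟩
  · exact Or.inr ⟨i, rfl⟩

/-- existence of fast sequences with values in sets with small elements -/
theorem exists_fast (γ : ℕ → T) (A : ℕ → Set T) (hA : ∀ n, ∀ ε > 0, ∃ a ∈ A n, a ≠ 0 ∧ ‖a‖ ≤ ε) :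
    ∃ h : ℕ → T, Fast γ h ∧ ∀ n, h n ∈ A n := by
  classical
  -- the bound for the next element
  choose R hR0 hR using fun (s : Finset T) (n : ℕ) => recurR s (eps n) (eps_pos n)
  -- the list of the characters used at stage `n`
  let stage : ℕ → (List T) → Finset T := fun n l => (Finset.range (n + 1)).image γ ∪ l.toFinset
  let fac : List T → ℝ := fun l => if l.getLastD 0 = 0 then 1 else ‖l.getLastD 0‖
  have hfac : ∀ l, 0 < fac l := by
    intro l
    simp only [fac]
    split_ifs with h0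
    · exact one_pos
    · exact norm_pos_iff.mpr h0
  let bd : ℕ → List T → ℝ := fun n l =>
    min (eps (n + 1) / (R (stage n l) (n + 1) + 1)) (eps n * fac l)
  have hbd : ∀ n l, 0 < bd n l := by
    intro n l
    refine lt_min ?_ (mul_pos (eps_pos _) (hfac l))
    have := hR0 (stage n l) (n + 1)
    have := eps_pos (n + 1)
    positivity
  choose pick hpick1 hpick2 hpick3 using fun (n : ℕ) (l : List T) => hA n (bd n l) (hbd n l)
  let L : ℕ → List T := fun n => Nat.rec [] (fun n l => l ++ [pick n l]) n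
  have hL0 : L 0 = [] := rfl
  have hLs : ∀ n, L (n + 1) = L n ++ [pick n (L n)] := fun n => rfl
  have hmem : ∀ n j, j < n → pick j (L j) ∈ L n := by
    intro n
    induction n with
    | zero => intro j hj; omega
    | succ n ih =>
      intro j hj
      rw [hLs, List.mem_append]
      rcases Nat.lt_succ_iff_lt_or_eq.mp hj with h1 | h1
      · exact Or.inl (ih j h1)
      · right; rw [h1]; simp
  refine ⟨fun n => pick n (L n), ⟨fun n => hpick2 _ _, fun n => ?_, fun n => ?_⟩,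
    fun n => hpick1 _ _⟩
  · have h1 := (hpick3 (n + 1) (L (n + 1))).trans (min_le_right _ _)
    have h2 : fac (L (n + 1)) = ‖pick n (L n)‖ := by
      simp only [fac, hLs, List.getLastD_concat]
      rw [if_neg (hpick2 _ _)]
    rwa [h2] at h1
  · have h1 := (hpick3 n (L n)).trans (min_le_left _ _)
    refine ⟨R (stage n (L n)) (n + 1), hR0 _ _, ?_, fun k a => ?_⟩
    · have h2 := hR0 (stage n (L n)) (n + 1)
      rw [le_div_iff₀ (by positivity)] at h1
      linarith
    · obtain ⟨k', hk1, hk2⟩ := hR (stage n (L n)) (n + 1) k a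
      refine ⟨k', hk1, fun i hi => hk2 _ ?_, fun j hj => hk2 _ ?_⟩
      · simp only [stage, Finset.mem_union]
        left
        exact Finset.mem_image_of_mem _ (Finset.mem_range.mpr (by omega))
      · simp only [stage, Finset.mem_union]
        right
        rw [List.mem_toFinset]
        exact hmem n j hj

end Pool.Agent.V1140.ZT
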