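import Pool.Agent.V1140.ZT.Seq

set_option autoImplicit false
set_option linter.style.haveILetI false

/-!
The case `b n = 2 ^ n`: the supremum of the `tau c` is compatible with the 2-adic topology, and is not
the Mackey topology.
-/

namespace Pool.Agent.V1140.ZT

open Filter Topology

/-- the powers of two -/
def two (n : ℕ) : ℕ := 2 ^ n

theorem two_dseq : IsDSeq two where
  zero := rfl
  pos n := by unfold two; positivity
  dvd n := ⟨2, by unfold two; ring⟩
  ne n := by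
    unfold two
    intro h
    have := Nat.pow_right_injective le_rfl h
    omega

/-- sequences of exponents with gaps tending to infinity -/
def Gappy (e : ℕ → ℕ) : Prop := StrictMono e ∧ Tendsto (fun n => e (n + 1) - e n) atTop atTop

theorem exponents {c : ℕ → ℕ} (hc : IsDInf c ∧ lam c = lam two) :
    ∃ e : ℕ → ℕ, (∀ n, c n = 2 ^ e n) ∧ Gappy e := by
  obtain ⟨⟨hd, ht⟩, hl⟩ := hc
  have h1 : ∀ n, ∃ m, c n = 2 ^ m := by
    intro n
    have h2 : {k : ℤ | (c n : ℤ) ∣ k} ∈ @nhds ℤ (lam c) 0 :=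
      (mem_nhds_lam hd _).mpr ⟨n, fun k hk => hk⟩
    rw [hl, mem_nhds_lam two_dseq] at h2
    obtain ⟨N, hN⟩ := h2
    have h3 : (c n : ℤ) ∣ (two N : ℤ) := hN _ dvd_rfl
    have h4 : c n ∣ 2 ^ N := by
      have := Int.natCast_dvd_natCast.mp h3
      exact this
    obtain ⟨m, -, hm⟩ := (Nat.dvd_prime_pow Nat.prime_two).mp h4
    exact ⟨m, hm⟩
  choose e he using h1
  have hmono : StrictMono e := by
    refine strictMono_nat_of_lt_succ fun n => ?_
    have h2 := hd.dvd n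
    have h3 := hd.ne n
    rw [he n, he (n + 1)] at h2 h3
    have h4 := (Nat.pow_dvd_pow_iff_le_right (by norm_num)).mp h2
    exact lt_of_le_of_ne h4 fun h => h3 (by rw [h])
  refine ⟨e, he, hmono, ?_⟩
  rw [tendsto_atTop]
  intro A
  have h2 := (tendsto_atTop.mp ht) (2 ^ A)
  filter_upwards [h2] with n hn
  rw [he n, he (n + 1)] at hn
  have h3 : e n ≤ e (n + 1) := (hmono (Nat.lt_succ_self n)).le
  rw [Nat.pow_div h3 (by norm_num)] at hn
  exact (Nat.pow_le_pow_iff_right (by norm_num)).mp hn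

theorem free_pos (F : Finset (ℕ → ℕ)) (hF : ∀ e ∈ F, Gappy e) (L : ℕ) :
    ∃ W P0 : ℕ, ∀ p, P0 ≤ p → ∃ q, q ≤ p ∧ p ≤ q + W ∧
      ∀ e ∈ F, ∀ n, ¬ (q < e n ∧ e n ≤ q + L) := by
  classical
  set W := F.card * (L + 1) with hW
  have h1 : ∀ e ∈ F, ∃ N, ∀ n, N ≤ n → W + L < e (n + 1) - e n := by
    intro e he
    have := (tendsto_atTop.mp (hF e he).2) (W + L + 1)
    obtain ⟨N, hN⟩ := eventually_atTop.mp this
    exact ⟨N, fun n hn => hN n hn⟩
  choose! N hN using h1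
  refine ⟨W, W + F.sup (fun e => e (N e)), fun p hp => ?_⟩
  by_contra hcon
  push Not at hcon
  have h2 : ∀ j ∈ Finset.range (F.card + 1), ∃ e ∈ F, ∃ n,
      p - j * (L + 1) < e n ∧ e n ≤ p - j * (L + 1) + L := by
    intro j hj
    have hj' : j ≤ F.card := by
      have := Finset.mem_range.mp hj; omega
    have h3 : j * (L + 1) ≤ W := Nat.mul_le_mul_right _ hj'
    exact hcon (p - j * (L + 1)) (Nat.sub_le _ _) (by omega)
  choose! E hE M hM1 hM2 using h2
  obtain ⟨j, hj, j', hj', hjj', hEE⟩ := Finset.exists_ne_map_eq_of_card_lt_of_maps_to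
    (s := Finset.range (F.card + 1)) (t := F) (f := E) (by simp) (fun j hj => hE j hj)
  wlog hlt : j < j' generalizing j j'
  · exact this j' hj' j hj hjj'.symm hEE.symm (by omega)
  have hjF : j' ≤ F.card := by
    have := Finset.mem_range.mp hj'; omega
  have h3 : j' * (L + 1) ≤ W := Nat.mul_le_mul_right _ hjF
  have h4 : j * (L + 1) + (L + 1) ≤ j' * (L + 1) := by
    have : (j + 1) * (L + 1) ≤ j' * (L + 1) := Nat.mul_le_mul_right _ hlt
    linarith [this]
  have a1 := hM1 j hj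
  have a2 := hM2 j hj
  have b1 := hM1 j' hj'
  have b2 := hM2 j' hj'
  rw [← hEE] at b1 b2
  set e := E j with he
  have hmono := (hF e (hE j hj)).1
  have hlt2 : M j' < M j := by
    rw [← hmono.lt_iff_lt]
    omega
  have h5 : e (N e) ≤ F.sup (fun e => e (N e)) := Finset.le_sup (f := fun e => e (N e)) (hE j hj)
  have h6 : N e ≤ M j' := by
    by_contra hcc
    have : e (M j') < e (N e) := hmono (by omega)
    omega
  have h7 := hN e (hE j hj) (M j') h6
  have h8 : e (M j' + 1) ≤ e (M j) := hmono.monotone (by omega)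
  omega

theorem sum_half (M : ℕ) : ∑ q ∈ Finset.range M, (1 / 2 : ℝ) ^ (M - q) ≤ 1 := by
  induction M with
  | zero => simp
  | succ M ih =>
    rw [Finset.sum_range_succ]
    have h1 : ∑ q ∈ Finset.range M, (1 / 2 : ℝ) ^ (M + 1 - q) =
        (1 / 2) * ∑ q ∈ Finset.range M, (1 / 2 : ℝ) ^ (M - q) := by
      rw [Finset.mul_sum]
      refine Finset.sum_congr rfl fun q hq => ?_
      have : M + 1 - q = (M - q) + 1 := by
        have := Finset.mem_range.mp hq; omega
      rw [this, pow_succ]; ring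
    rw [h1]
    simp only [Nat.add_sub_cancel_left, pow_one]
    linarith

theorem adm (e : ℕ → ℕ) (L : ℕ) (J : Finset ℕ) (q : ℕ → ℕ) (ε : ℕ → ℤ) (hq : Set.InjOn q J)
    (hε : ∀ j, |ε j| ≤ 1) (hfree : ∀ j ∈ J, ∀ n, ¬ (q j < e n ∧ e n ≤ q j + L)) (n : ℕ) :
    ‖(∑ j ∈ J, ε j * 2 ^ (q j)) • ((1 / (2 ^ (e n) : ℝ) : ℝ) : T)‖ ≤ (1 / 2) ^ L := by
  classical
  rw [Finset.sum_smul]
  refine (norm_sum_le _ _).trans ?_
  have hterm : ∀ j ∈ J, ‖(ε j * 2 ^ (q j)) • ((1 / (2 ^ (e n) : ℝ) : ℝ) : T)‖ ≤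
      if q j < e n - L then (1 / 2 : ℝ) ^ L * (1 / 2) ^ (e n - L - q j) else 0 := by
    intro j hj
    have hfr := hfree j hj n
    by_cases h1 : e n ≤ q j
    · rw [if_neg (by omega)]
      have : (ε j * 2 ^ (q j)) • ((1 / (2 ^ (e n) : ℝ) : ℝ) : T) = 0 := by
        rw [← AddCircle.coe_zsmul, AddCircle.coe_eq_zero_iff]
        refine ⟨ε j * 2 ^ (q j - e n), ?_⟩
        rw [zsmul_eq_mul, zsmul_eq_mul]
        push_cast
        rw [← Nat.sub_add_cancel h1, pow_add, Nat.add_sub_cancel]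
        field_simp
      rw [this, norm_zero]
    · have h2 : q j + L < e n := by omega
      rw [if_pos (by omega)]
      refine (zsmul_norm_le _ _).trans ?_
      have h3 : |((ε j * 2 ^ (q j) : ℤ) : ℝ)| ≤ 2 ^ (q j) := by
        push_cast
        rw [abs_mul, abs_of_pos (by positivity : (0 : ℝ) < 2 ^ (q j))]
        have h4 : |(ε j : ℝ)| ≤ 1 := by exact_mod_cast hε j
        nlinarith [pow_pos (two_pos (α := ℝ)) (q j)]
      have h5 : ‖((1 / (2 ^ (e n) : ℝ) : ℝ) : T)‖ ≤ 1 / 2 ^ (e n) := by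
        refine (norm_coe_le _).trans ?_
        rw [abs_of_pos (by positivity)]
      calc |((ε j * 2 ^ (q j) : ℤ) : ℝ)| * ‖((1 / (2 ^ (e n) : ℝ) : ℝ) : T)‖
          ≤ 2 ^ (q j) * (1 / 2 ^ (e n)) :=
            mul_le_mul h3 h5 (norm_nonneg _) (by positivity)
        _ = (1 / 2 : ℝ) ^ L * (1 / 2) ^ (e n - L - q j) := by
            have h6 : e n = q j + (L + (e n - L - q j)) := by omega
            rw [← pow_add]
            conv_lhs => rw [h6]
            rw [pow_add, one_div_pow]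
            field_simp
  refine (Finset.sum_le_sum hterm).trans ?_
  rw [← Finset.sum_filter, ← Finset.mul_sum]
  have h1 : ∑ j ∈ J.filter (fun j => q j < e n - L), (1 / 2 : ℝ) ^ (e n - L - q j) ≤
      ∑ r ∈ Finset.range (e n - L), (1 / 2 : ℝ) ^ (e n - L - r) := by
    rw [← Finset.sum_image (f := fun r => (1 / 2 : ℝ) ^ (e n - L - r)) (g := q)
      (s := J.filter (fun j => q j < e n - L))]
    · refine Finset.sum_le_sum_of_subset_of_nonneg ?_ fun _ _ _ => by positivity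
      intro r hr
      obtain ⟨j, hj, rfl⟩ := Finset.mem_image.mp hr
      exact Finset.mem_range.mpr (Finset.mem_filter.mp hj).2
    · intro a ha b hb hab
      exact hq (Finset.mem_filter.mp ha).1 (Finset.mem_filter.mp hb).1 hab
  have h2 := sum_half (e n - L)
  have h3 : (0 : ℝ) ≤ (1 / 2) ^ L := by positivity
  nlinarith

/-- free positions and admissible sums -/
theorem free_adm (F : Finset (ℕ → ℕ)) (hF : ∀ c ∈ F, IsDInf c ∧ lam c = lam two) (δ : ℝ)
    (hδ : 0 < δ) : ∃ (W P0 : ℕ) (Free : ℕ → Prop), (∀ p, P0 ≤ p → ∃ q, q ≤ p ∧ p ≤ q + W ∧ Free q) ∧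
      ∀ (J : Finset ℕ) (q : ℕ → ℕ) (ε : ℕ → ℤ), Set.InjOn q J → (∀ j ∈ J, Free (q j)) →
        (∀ j, |ε j| ≤ 1) → ∀ c ∈ F, ∀ n,
        ‖(∑ j ∈ J, ε j * 2 ^ (q j)) • ((1 / (c (n + 1) : ℝ) : ℝ) : T)‖ ≤ δ := by
  classical
  obtain ⟨L, hL⟩ := exists_pow_lt_of_lt_one hδ (show (1 / 2 : ℝ) < 1 by norm_num)
  choose! e he1 he2 using fun (c : ℕ → ℕ) (hc : c ∈ F) => exponents (hF c hc)
  obtain ⟨W, P0, hWP⟩ := free_pos (F.image e) (by
    intro e' he'
    obtain ⟨c, hc, rfl⟩ := Finset.mem_image.mp he'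
    exact he2 c hc) L
  refine ⟨W, P0, fun q => ∀ e' ∈ F.image e, ∀ n, ¬ (q < e' n ∧ e' n ≤ q + L), hWP, ?_⟩
  intro J q ε hq hfree hε c hc n
  have h1 := adm (e c) L J q ε hq hε
    (fun j hj => hfree j hj (e c) (Finset.mem_image_of_mem _ hc)) (n + 1)
  rw [he1 c hc (n + 1)]
  push_cast
  exact h1.trans hL.le

/-- doubling -/
theorem exists_double (x : T) (hx : ∀ N : ℕ, (2 ^ N : ℤ) • x ≠ 0) (P : ℕ) :
    ∃ p, P ≤ p ∧ 1 / 4 ≤ ‖(2 ^ p : ℤ) • x‖ := by
  by_contra hcon
  push Not at hcon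
  have h1 : ∀ j : ℕ, ‖(2 ^ (P + j) : ℤ) • x‖ = 2 ^ j * ‖(2 ^ P : ℤ) • x‖ := by
    intro j
    induction j with
    | zero => simp
    | succ j ih =>
      have h2 := hcon (P + j) (by omega)
      have h3 := norm_smul_nat_eq (w := (2 ^ (P + j) : ℤ) • x) 2 (by push_cast; linarith)
      have h4 : (2 ^ (P + (j + 1)) : ℤ) • x = ((2 : ℕ) : ℤ) • ((2 ^ (P + j) : ℤ) • x) := by
        rw [← mul_smul]
        congr 1
        rw [← add_assoc, pow_succ]
        push_cast
        ring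
      rw [h4, h3, ih, pow_succ]
      push_cast
      ring
  have hpos : 0 < ‖(2 ^ P : ℤ) • x‖ := norm_pos_iff.mpr (hx P)
  obtain ⟨j, hj⟩ := pow_unbounded_of_one_lt (1 / ‖(2 ^ P : ℤ) • x‖) (show (1 : ℝ) < 2 by norm_num)
  have h2 := hcon (P + j) (by omega)
  rw [h1 j] at h2
  rw [div_lt_iff₀ hpos] at hj
  linarith

theorem sgn_lift (y : T) : ∃ s : ℤ, |s| ≤ 1 ∧ s • y = (‖y‖ : T) := by
  obtain ⟨r, hr1, hr2⟩ := exists_lift y
  rcases le_or_gt 0 r with h0 | h0
  · refine ⟨1, by simp, ?_⟩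
    rw [one_smul, ← hr2, abs_of_nonneg h0, hr1]
  · refine ⟨-1, by simp, ?_⟩
    rw [neg_smul, one_smul, ← hr2, abs_of_neg h0, AddCircle.coe_neg, hr1]

/-- the supremum has no new characters -/
theorem compat_two (x : T) (hx : ch x ∈ chars (supTau two)) : ∃ N : ℕ, (2 ^ N : ℤ) • x = 0 := by
  classical
  by_contra hcon
  push Not at hcon
  rw [mem_chars_iff _ (supTau_group two)] at hx
  obtain ⟨F, hF, δ, hδ, hU⟩ := mem_nhds_supTau two (hx (1 / 4) (by norm_num))
  obtain ⟨W, P0, Free, hfree, hadm⟩ := free_adm F hF δ hδ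
  have hfr : ∃ᶠ q in atTop, Free q ∧ 1 / 2 ^ (W + 2) ≤ ‖(2 ^ q : ℤ) • x‖ := by
    rw [frequently_atTop]
    intro P
    obtain ⟨p, hp1, hp2⟩ := exists_double x hcon (P + W + P0)
    obtain ⟨q, hq1, hq2, hq3⟩ := hfree p (by omega)
    refine ⟨q, by omega, hq3, ?_⟩
    have h1 : (2 ^ p : ℤ) • x = (2 ^ (p - q) : ℤ) • ((2 ^ q : ℤ) • x) := by
      rw [← mul_smul, ← pow_add, Nat.sub_add_cancel hq1]
    rw [h1] at hp2
    have h2 := zsmul_norm_le (2 ^ (p - q)) ((2 ^ q : ℤ) • x)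
    have h3 : |((2 ^ (p - q) : ℤ) : ℝ)| ≤ 2 ^ W := by
      push_cast
      rw [abs_of_pos (by positivity)]
      exact pow_le_pow_right₀ (by norm_num) (by omega)
    have h4 : |((2 ^ (p - q) : ℤ) : ℝ)| * ‖(2 ^ q : ℤ) • x‖ ≤ 2 ^ W * ‖(2 ^ q : ℤ) • x‖ :=
      mul_le_mul_of_nonneg_right h3 (norm_nonneg _)
    rw [div_le_iff₀ (by positivity), pow_add]
    linarith
  obtain ⟨q, hqm, hq⟩ := extraction_of_frequently_atTop hfr
  choose s hs1 hs2 using fun j => sgn_lift ((2 ^ q j : ℤ) • x)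
  have hcont : ∀ (J : Finset ℕ), ‖(∑ j ∈ J, s j * 2 ^ (q j)) • x‖ ≤ 1 / 4 := by
    intro J
    have := hU _ (fun c hc n => hadm J q s hqm.injective.injOn (fun j _ => (hq j).1) hs1 c hc n)
    exact this
  have hk : ∀ j, (s j * 2 ^ (q j)) • x = ((‖(2 ^ q j : ℤ) • x‖ : ℝ) : T) := by
    intro j
    rw [mul_smul]
    exact hs2 j
  have hsum := sum_principle (n := 2 ^ (W + 1)) (fun j => s j * 2 ^ (q j))
    (fun j => ‖(2 ^ q j : ℤ) • x‖) x (1 / 4) le_rfl (by norm_num) (fun j _ => norm_nonneg _)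
    (fun j _ => by
      have h1 := hcont {j}
      rw [Finset.sum_singleton, hk j, norm_coe_of_abs_le, abs_of_nonneg (norm_nonneg _)] at h1
      · exact h1
      · rw [abs_of_nonneg (norm_nonneg _)]
        have := AddCircle.norm_le_half_period (1 : ℝ) (x := (2 ^ q j : ℤ) • x) one_ne_zero
        simpa using this)
    (fun j _ => hk j) (fun m _ => hcont _)
  have h1 : ∑ j ∈ Finset.range (2 ^ (W + 1)), (1 / 2 ^ (W + 2) : ℝ) ≤
      ∑ j ∈ Finset.range (2 ^ (W + 1)), ‖(2 ^ q j : ℤ) • x‖ :=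
    Finset.sum_le_sum fun j _ => (hq j).2
  rw [Finset.sum_const, Finset.card_range, nsmul_eq_mul] at h1
  have h2 : ((2 ^ (W + 1) : ℕ) : ℝ) * (1 / 2 ^ (W + 2)) = 1 / 2 := by
    push_cast
    rw [pow_succ, pow_add]
    field_simp
  linarith

theorem chars_lam_two (x : T) : ch x ∈ chars (lam two) ↔ ∃ N : ℕ, (2 ^ N : ℤ) • x = 0 := by
  rw [mem_chars_iff _ (lam_group two)]
  constructor
  · intro h
    have h1 := h (1 / 8) (by norm_num)
    rw [mem_nhds_lam two_dseq] at h1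
    obtain ⟨N, hN⟩ := h1
    refine ⟨N, ?_⟩
    by_contra hne
    obtain ⟨k, hk⟩ := exists_big hne
    have h2 := hN (k * 2 ^ N) (by
      unfold two
      push_cast
      exact dvd_mul_left _ _)
    rw [Set.mem_ofPred_eq, ch_apply, mul_smul] at h2
    linarith
  · rintro ⟨N, hN⟩ ε hε
    rw [mem_nhds_lam two_dseq]
    refine ⟨N, fun k hk => ?_⟩
    obtain ⟨c, rfl⟩ := hk
    rw [Set.mem_ofPred_eq, ch_apply]
    have : (((two N : ℕ) : ℤ) * c) • x = 0 := by
      unfold two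
      push_cast
      rw [mul_comm, mul_smul, hN, smul_zero]
    rw [this, norm_zero]
    exact hε.le

/-- `s_b` is compatible with the 2-adic topology. -/
theorem chars_supTau_two : chars (supTau two) = chars (lam two) := by
  ext χ
  rw [eq_ch χ]
  constructor
  · intro h
    rw [chars_lam_two]
    exact compat_two _ h
  · intro h
    rw [chars_lam_two] at h
    obtain ⟨N, hN⟩ := h
    -- a sequence in the family
    let c : ℕ → ℕ := fun n => 2 ^ (n * n)
    have hcd : IsDSeq c :=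
      { zero := rfl
        pos := fun n => by positivity
        dvd := fun n => pow_dvd_pow _ (by nlinarith)
        ne := fun n h => by
          have := Nat.pow_right_injective le_rfl h
          nlinarith }
    have hci : IsDInf c := by
      refine ⟨hcd, ?_⟩
      have h1 : ∀ n, c (n + 1) / c n = 2 ^ (2 * n + 1) := by
        intro n
        simp only [c]
        rw [Nat.pow_div (by nlinarith) (by norm_num)]
        congr 1
        have : (n + 1) * (n + 1) = n * n + (2 * n + 1) := by ring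
        omega
      simp only [h1]
      refine tendsto_atTop_mono (fun n => ?_) tendsto_id
      have := Nat.lt_two_pow_self (n := 2 * n + 1)
      simp only [id]
      omega
    have hlam : lam c = lam two := by
      have key : ∀ U : Set ℤ, U ∈ @nhds ℤ (lam c) 0 ↔ U ∈ @nhds ℤ (lam two) 0 := by
        intro U
        rw [mem_nhds_lam hcd, mem_nhds_lam two_dseq]
        constructor
        · rintro ⟨n, hn⟩
          exact ⟨n * n, fun k hk => hn k hk⟩
        · rintro ⟨n, hn⟩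
          refine ⟨n, fun k hk => hn k (dvd_trans ?_ hk)⟩
          have : two n ∣ c n := pow_dvd_pow _ (by nlinarith)
          exact_mod_cast this
      refine IsTopologicalAddGroup.ext (lam_group c) (lam_group two) ?_
      ext U
      exact key U
    rw [mem_chars_iff _ (supTau_group two)]
    intro ε hε
    refine nhds_supTau_le two c ⟨hci, hlam⟩ ?_
    rw [mem_nhds_unif]
    refine ⟨1 / (2 * 2 ^ ((N + 1) * (N + 1))), by positivity, fun k hk => ?_⟩
    have h1 := hk N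
    -- `k` is divisible by `2 ^ ((N + 1) ^ 2)`
    have h2 : ((2 : ℤ) ^ ((N + 1) * (N + 1))) ∣ k := by
      by_contra hnd
      have h3 : k • ((1 / (c (N + 1) : ℝ) : ℝ) : T) ≠ 0 := by
        intro h0
        apply hnd
        rw [← AddCircle.coe_zsmul, AddCircle.coe_eq_zero_iff] at h0
        obtain ⟨m, hm⟩ := h0
        refine ⟨m, ?_⟩
        rw [zsmul_eq_mul, zsmul_eq_mul] at hm
        have hc0 : (c (N + 1) : ℝ) ≠ 0 := by
          have := hcd.pos (N + 1)
          positivity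
        field_simp at hm
        have h4 : (k : ℝ) = ((2 : ℤ) ^ ((N + 1) * (N + 1)) * m : ℤ) := by
          rw [← hm]
          simp only [c]
          push_cast
          ring
        exact_mod_cast h4
      obtain ⟨r, hr1, hr2⟩ := exists_lift (k • ((1 / (c (N + 1) : ℝ) : ℝ) : T))
      have h5 : ∃ m : ℤ, (c (N + 1) : ℝ) * r = m := by
        have h6 : ((c (N + 1) : ℤ)) • (k • ((1 / (c (N + 1) : ℝ) : ℝ) : T)) = 0 := by
          rw [← mul_smul, ← AddCircle.coe_zsmul, AddCircle.coe_eq_zero_iff]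
          refine ⟨k, ?_⟩
          rw [zsmul_eq_mul, zsmul_eq_mul]
          have hc0 : (c (N + 1) : ℝ) ≠ 0 := by
            have := hcd.pos (N + 1)
            positivity
          push_cast
          field_simp
        rw [← hr1, ← AddCircle.coe_zsmul, AddCircle.coe_eq_zero_iff] at h6
        obtain ⟨m, hm⟩ := h6
        refine ⟨m, ?_⟩
        rw [zsmul_eq_mul, zsmul_eq_mul] at hm
        push_cast at hm
        linarith
      obtain ⟨m, hm⟩ := h5
      have hcpos : (0 : ℝ) < c (N + 1) := by exact_mod_cast hcd.pos (N + 1)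
      have hr0 : r ≠ 0 := by
        intro h0
        rw [h0] at hr1
        exact h3 (by rw [← hr1]; rfl)
      have hm0 : m ≠ 0 := by
        intro h0
        rw [h0, Int.cast_zero] at hm
        exact hr0 ((mul_eq_zero.mp hm).resolve_left hcpos.ne')
      have h7 : (1 : ℝ) ≤ |(m : ℝ)| := by
        have := Int.one_le_abs hm0
        exact_mod_cast this
      rw [← hm, abs_mul, abs_of_pos hcpos, hr2] at h7
      have h8 : (c (N + 1) : ℝ) = 2 ^ ((N + 1) * (N + 1)) := by simp [c]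
      have h9 : (c (N + 1) : ℝ) * ‖k • ((1 / (c (N + 1) : ℝ) : ℝ) : T)‖ ≤
          c (N + 1) * (1 / (2 * 2 ^ ((N + 1) * (N + 1)))) :=
        mul_le_mul_of_nonneg_left h1 hcpos.le
      have h10 : (c (N + 1) : ℝ) * (1 / (2 * 2 ^ ((N + 1) * (N + 1)))) = 1 / 2 := by
        rw [h8]; field_simp
      linarith
    obtain ⟨m, rfl⟩ := h2
    rw [Set.mem_ofPred_eq, ch_apply]
    have h3 : ((2 : ℤ) ^ ((N + 1) * (N + 1)) * m) • χ 1 = 0 := by
      have h4 : (N + 1) * (N + 1) = ((N + 1) * (N + 1) - N) + N := by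
        rw [Nat.sub_add_cancel (by nlinarith)]
      rw [h4, pow_add, mul_comm, ← mul_assoc, mul_smul, hN, smul_zero]
    rw [h3, norm_zero]
    exact hε.le

/-! ### A compatible topology which is not coarser -/

theorem geom_bound (y : ℝ) (hy0 : 0 ≤ y) (hy : y ≤ 1 / 4) (j m : ℕ) :
    ∑ i ∈ Finset.Ico j m, y ^ i ≤ 4 / 3 * y ^ j := by
  have key : ∀ m, j ≤ m → ∑ i ∈ Finset.Ico j m, y ^ i ≤ 4 / 3 * (y ^ j - y ^ m) := by
    intro m hm
    induction m, hm using Nat.le_induction with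
    | base => simp
    | succ m hm ih =>
      rw [Finset.sum_Ico_succ_top hm, pow_succ]
      have : 0 ≤ y ^ m := pow_nonneg hy0 m
      nlinarith
  rcases le_or_gt j m with h | h
  · have := key m h
    have := pow_nonneg hy0 m
    linarith
  · rw [Finset.Ico_eq_empty_of_le h.le, Finset.sum_empty]
    have := pow_nonneg hy0 j
    linarith

/-- the real numbers with `n + 1` binary digits with distances `n + 2` -/
noncomputable def val (n P : ℕ) : ℝ := ∑ i ∈ Finset.range (n + 1), (1 / 2 : ℝ) ^ (P + i * (n + 2))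

/-- the set of these elements -/
def digitSet (n : ℕ) : Set T := {a | ∃ P, n ≤ P ∧ a = ((val n P : ℝ) : T)}

theorem val_le (n P : ℕ) : val n P ≤ 4 / 3 * (1 / 2) ^ P := by
  unfold val
  have h1 : ∀ i, (1 / 2 : ℝ) ^ (P + i * (n + 2)) = (1 / 2) ^ P * ((1 / 2) ^ (n + 2)) ^ i := by
    intro i
    rw [pow_add, mul_comm i, pow_mul]
  simp only [h1]
  rw [← Finset.mul_sum, Finset.range_eq_Ico]
  have h2 := geom_bound ((1 / 2 : ℝ) ^ (n + 2)) (by positivity) (by
    calc (1 / 2 : ℝ) ^ (n + 2) ≤ (1 / 2) ^ 2 :=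
          pow_le_pow_of_le_one (by norm_num) (by norm_num) (by omega)
      _ = 1 / 4 := by norm_num) 0 (n + 1)
  rw [pow_zero, mul_one] at h2
  have h3 : (0 : ℝ) < (1 / 2) ^ P := by positivity
  nlinarith

theorem val_pos (n P : ℕ) : 0 < val n P := by
  unfold val
  exact Finset.sum_pos (fun _ _ => by positivity) ⟨0, by simp⟩

theorem digitSet_small (n : ℕ) (ε : ℝ) (hε : 0 < ε) : ∃ a ∈ digitSet n, a ≠ 0 ∧ ‖a‖ ≤ ε := by
  obtain ⟨P, hP⟩ := exists_pow_lt_of_lt_one (show 0 < min (ε / 2) (1 / 4) by positivity)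
    (show (1 / 2 : ℝ) < 1 by norm_num)
  have h1 : (1 / 2 : ℝ) ^ (max n P) ≤ (1 / 2) ^ P :=
    pow_le_pow_of_le_one (by norm_num) (by norm_num) (le_max_right _ _)
  have h2 := val_le n (max n P)
  have h3 := val_pos n (max n P)
  have h4 := min_le_left (ε / 2) (1 / 4 : ℝ)
  have h5 := min_le_right (ε / 2) (1 / 4 : ℝ)
  have h6 : ‖((val n (max n P) : ℝ) : T)‖ = val n (max n P) := by
    rw [norm_coe_of_abs_le, abs_of_pos h3]
    rw [abs_of_pos h3]; linarith
  refine ⟨_, ⟨max n P, le_max_left _ _, rfl⟩, ?_, ?_⟩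
  · intro h0
    rw [h0, norm_zero] at h6
    linarith
  · rw [h6]; linarith

theorem digitSet_char (n : ℕ) {a : T} (ha : a ∈ digitSet n) : ch a ∈ chars (lam two) := by
  obtain ⟨P, -, rfl⟩ := ha
  rw [chars_lam_two]
  refine ⟨P + n * (n + 2), ?_⟩
  rw [← AddCircle.coe_zsmul, AddCircle.coe_eq_zero_iff]
  refine ⟨∑ i ∈ Finset.range (n + 1), 2 ^ (P + n * (n + 2) - (P + i * (n + 2))), ?_⟩
  rw [zsmul_eq_mul, zsmul_eq_mul, mul_one, val, Finset.mul_sum]
  push_cast
  refine Finset.sum_congr rfl fun i hi => ?_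
  have h1 : P + i * (n + 2) ≤ P + n * (n + 2) := by
    have : i ≤ n := by
      have := Finset.mem_range.mp hi; omega
    exact Nat.add_le_add_left (Nat.mul_le_mul_right _ this) _
  conv_rhs => rw [← Nat.sub_add_cancel h1]
  rw [pow_add, mul_assoc, ← mul_pow]
  norm_num

theorem not_le_two {γ h : ℕ → T} (hh : ∀ n, h n ∈ digitSet n) :
    ¬ supTau two ≤ sigma γ h := by
  classical
  intro hle
  have hU : {k : ℤ | ∀ n, ‖k • h n‖ ≤ 1 / 8} ∈ @nhds ℤ (sigma γ h) 0 := by
    rw [mem_nhds_sigma]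
    exact ⟨1 / 8, by norm_num, 0, fun k h1 _ => h1⟩
  obtain ⟨F, hF, δ, hδ, hU2⟩ := mem_nhds_supTau two (nhds_mono hle hU)
  obtain ⟨W, P0, Free, hfree, hadm⟩ := free_adm F hF δ hδ
  set n := P0 + W + 2 ^ (W + 1) + 1 with hn
  obtain ⟨P, hP, hhn⟩ := hh n
  have hpow : W < 2 ^ (W + 1) := lt_trans (Nat.lt_succ_self W) Nat.lt_two_pow_self
  have hq : ∀ j : ℕ, ∃ q, q + 1 ≤ P + j * (n + 2) ∧ P + j * (n + 2) ≤ q + 1 + W ∧ Free q := by
    intro j
    obtain ⟨q, h1, h2, h3⟩ := hfree (P + j * (n + 2) - 1) (by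
      have := Nat.zero_le (j * (n + 2))
      omega)
    have : 1 ≤ P + j * (n + 2) := by
      have := Nat.zero_le (j * (n + 2))
      omega
    exact ⟨q, by omega, by omega, h3⟩
  choose q hq1 hq2 hq3 using hq
  have hqm : StrictMono q := by
    refine strictMono_nat_of_lt_succ fun j => ?_
    have h1 := hq1 j
    have h2 := hq2 (j + 1)
    have h3 : (j + 1) * (n + 2) = j * (n + 2) + (n + 2) := by ring
    rw [h3] at h2
    omega
  have hqp : ∀ i j, i < j → P + i * (n + 2) ≤ q j := by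
    intro i j hij
    have h2 := hq2 j
    have h3 : (i + 1) * (n + 2) ≤ j * (n + 2) := Nat.mul_le_mul_right _ hij
    have h4 : (i + 1) * (n + 2) = i * (n + 2) + (n + 2) := by ring
    omega
  set t : ℕ → ℝ := fun j => ∑ i ∈ Finset.Ico j (n + 1), 2 ^ q j * (1 / 2 : ℝ) ^ (P + i * (n + 2))
    with ht
  have ht1 : ∀ j < n + 1, ((2 : ℤ) ^ q j) • h n = (t j : T) := by
    intro j hj
    rw [hhn, ← AddCircle.coe_zsmul, ← sub_eq_zero, ← AddCircle.coe_sub, AddCircle.coe_eq_zero_iff]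
    refine ⟨∑ i ∈ Finset.range j, 2 ^ (q j - (P + i * (n + 2))), ?_⟩
    rw [zsmul_eq_mul, zsmul_eq_mul, mul_one, val, Finset.mul_sum]
    push_cast
    simp only [ht]
    rw [eq_sub_iff_add_eq, Finset.range_eq_Ico, Finset.range_eq_Ico,
      ← Finset.sum_Ico_consecutive _ (Nat.zero_le j) hj.le]
    congr 1
    refine Finset.sum_congr rfl fun i hi => ?_
    have h1 := hqp i j (Finset.mem_Ico.mp hi).2
    conv_rhs => rw [← Nat.sub_add_cancel h1]
    rw [pow_add, mul_assoc, ← mul_pow]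
    norm_num
  have hnn : ∀ j, 0 ≤ t j := fun j => Finset.sum_nonneg fun _ _ => by positivity
  have hlow : ∀ j < n + 1, 1 / 2 ^ (W + 1) ≤ t j := by
    intro j hj
    have h1 : 2 ^ q j * (1 / 2 : ℝ) ^ (P + j * (n + 2)) ≤ t j := by
      simp only [ht]
      exact Finset.single_le_sum (f := fun i => 2 ^ q j * (1 / 2 : ℝ) ^ (P + i * (n + 2)))
        (fun i _ => by positivity) (Finset.mem_Ico.mpr ⟨le_rfl, hj⟩)
    refine le_trans ?_ h1
    have h2 : (1 / 2 : ℝ) ^ (q j + 1 + W) ≤ (1 / 2 : ℝ) ^ (P + j * (n + 2)) :=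
      pow_le_pow_of_le_one (by norm_num) (by norm_num) (hq2 j)
    have h3 : (1 / 2 ^ (W + 1) : ℝ) = 2 ^ q j * (1 / 2 : ℝ) ^ (q j + 1 + W) := by
      have e1 : (1 / 2 : ℝ) ^ (q j + 1 + W) = (1 / 2) ^ q j * (1 / 2) ^ (W + 1) := by
        rw [← pow_add]; congr 1; ring
      have e2 : (2 : ℝ) ^ q j * (1 / 2) ^ q j = 1 := by
        rw [← mul_pow]; norm_num
      rw [e1, ← mul_assoc, e2, one_mul, one_div_pow]
    rw [h3]
    exact mul_le_mul_of_nonneg_left h2 (by positivity)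
  have hhigh : ∀ j < n + 1, t j ≤ 2 / 3 := by
    intro j hj
    simp only [ht]
    have h1 : ∀ i, 2 ^ q j * (1 / 2 : ℝ) ^ (P + i * (n + 2)) =
        2 ^ q j * (1 / 2) ^ P * ((1 / 2) ^ (n + 2)) ^ i := by
      intro i
      rw [pow_add, mul_comm i, pow_mul]; ring
    simp only [h1]
    rw [← Finset.mul_sum]
    have h2 := geom_bound ((1 / 2 : ℝ) ^ (n + 2)) (by positivity) (by
      calc (1 / 2 : ℝ) ^ (n + 2) ≤ (1 / 2) ^ 2 :=
            pow_le_pow_of_le_one (by norm_num) (by norm_num) (by omega)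
        _ = 1 / 4 := by norm_num) j (n + 1)
    have h3 : (0 : ℝ) < 2 ^ q j * (1 / 2) ^ P := by positivity
    have h4 : 2 ^ q j * (1 / 2 : ℝ) ^ P * ((1 / 2) ^ (n + 2)) ^ j ≤ 1 / 2 := by
      rw [← h1 j]
      have h5 : (1 / 2 : ℝ) ^ (P + j * (n + 2)) ≤ (1 / 2) ^ (q j + 1) :=
        pow_le_pow_of_le_one (by norm_num) (by norm_num) (hq1 j)
      have h6 : (2 : ℝ) ^ q j * (1 / 2 : ℝ) ^ (q j + 1) = 1 / 2 := by
        rw [pow_succ, ← mul_assoc, ← mul_pow]
        norm_num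
      calc (2 : ℝ) ^ q j * (1 / 2 : ℝ) ^ (P + j * (n + 2)) ≤ 2 ^ q j * (1 / 2 : ℝ) ^ (q j + 1) :=
            mul_le_mul_of_nonneg_left h5 (by positivity)
        _ = 1 / 2 := h6
    calc 2 ^ q j * (1 / 2 : ℝ) ^ P * ∑ i ∈ Finset.Ico j (n + 1), ((1 / 2) ^ (n + 2)) ^ i
        ≤ 2 ^ q j * (1 / 2 : ℝ) ^ P * (4 / 3 * ((1 / 2) ^ (n + 2)) ^ j) :=
          mul_le_mul_of_nonneg_left h2 h3.le
      _ = 4 / 3 * (2 ^ q j * (1 / 2 : ℝ) ^ P * ((1 / 2) ^ (n + 2)) ^ j) := by ring
      _ ≤ 2 / 3 := by linarith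
  have hcont : ∀ (J : Finset ℕ), ‖(∑ j ∈ J, (2 : ℤ) ^ (q j)) • h n‖ ≤ 1 / 8 := by
    intro J
    have h1 := hU2 (∑ j ∈ J, (1 : ℤ) * 2 ^ (q j)) (fun c hc m =>
      hadm J q (fun _ => 1) hqm.injective.injOn (fun j _ => hq3 j) (fun _ => by simp) c hc m)
    have h2 := h1 n
    simpa using h2
  have hsmall : ∀ j < n + 1, t j ≤ 1 / 8 := by
    intro j hj
    have h1 := hcont {j}
    rw [Finset.sum_singleton, ht1 j hj] at h1
    have h2 := hhigh j hj
    by_contra h3
    push Not at h3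
    rcases le_or_gt (t j) (1 / 2) with h4 | h4
    · rw [norm_coe_of_abs_le (by rw [abs_of_nonneg (hnn j)]; exact h4), abs_of_nonneg (hnn j)] at h1
      linarith
    · have h5 : ((t j : ℝ) : T) = ((t j - 1 : ℝ) : T) := by
        rw [AddCircle.coe_sub]
        have : ((1 : ℝ) : T) = 0 := AddCircle.coe_period (1 : ℝ)
        rw [this, sub_zero]
      rw [h5, norm_coe_of_abs_le (by rw [abs_of_neg (by linarith)]; linarith),
        abs_of_neg (by linarith)] at h1
      linarith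
  have hsum := sum_principle (n := n + 1) (fun j => (2 : ℤ) ^ (q j)) t (h n) (1 / 8) (by norm_num)
    (by norm_num) (fun j _ => hnn j) hsmall ht1 (fun m _ => hcont _)
  have h1 : ∑ j ∈ Finset.range (n + 1), (1 / 2 ^ (W + 1) : ℝ) ≤ ∑ j ∈ Finset.range (n + 1), t j :=
    Finset.sum_le_sum fun j hj => hlow j (Finset.mem_range.mp hj)
  rw [Finset.sum_const, Finset.card_range, nsmul_eq_mul] at h1
  have h2 : (2 ^ (W + 1) : ℝ) ≤ ((n + 1 : ℕ) : ℝ) := by
    have : 2 ^ (W + 1) ≤ n + 1 := by omega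
    exact_mod_cast this
  have h3 : (2 ^ (W + 1) : ℝ) * (1 / 2 ^ (W + 1)) = 1 := by field_simp
  have h4 : (2 ^ (W + 1) : ℝ) * (1 / 2 ^ (W + 1)) ≤ ((n + 1 : ℕ) : ℝ) * (1 / 2 ^ (W + 1)) :=
    mul_le_mul_of_nonneg_right h2 (by positivity)
  linarith

theorem countable_chars_lam_two : {x : T | ch x ∈ chars (lam two)}.Countable := by
  have h1 : {x : T | ch x ∈ chars (lam two)} ⊆
      Set.range (fun p : ℤ × ℕ => (((p.1 : ℝ) / 2 ^ p.2 : ℝ) : T)) := by
    intro x hx
    obtain ⟨N, hN⟩ := (chars_lam_two x).mp hx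
    obtain ⟨r, hr1, -⟩ := exists_lift x
    rw [← hr1, ← AddCircle.coe_zsmul, AddCircle.coe_eq_zero_iff] at hN
    obtain ⟨m, hm⟩ := hN
    refine ⟨(m, N), ?_⟩
    rw [zsmul_eq_mul, zsmul_eq_mul, mul_one] at hm
    push_cast at hm
    simp only
    rw [hm, mul_div_cancel_left₀ _ (by positivity), hr1]
  exact (Set.countable_range _).mono h1

/-- **For `b n = 2 ^ n` the supremum `s_b` is compatible with the 2-adic topology, but some compatible
locally quasi-convex group topology is not coarser than `s_b`.** -/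
theorem not_mackey_two : ∃ σ : TopologicalSpace ℤ, @IsTopologicalAddGroup ℤ σ _ ∧ IsLQC σ ∧
    chars σ = chars (lam two) ∧ ¬ supTau two ≤ σ := by
  have hne : {x : T | ch x ∈ chars (lam two)}.Nonempty := ⟨0, by
    rw [Set.mem_ofPred_eq, chars_lam_two]
    exact ⟨0, by simp⟩⟩
  obtain ⟨γ, hγ⟩ := countable_chars_lam_two.exists_eq_range hne
  obtain ⟨h, hf, hh⟩ := exists_fast γ digitSet digitSet_small
  set H := charGroup (lam two) (lam_group two) with hH
  have hγH : Set.range γ = (H : Set T) := hγ.symm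
  have hhH : ∀ n, h n ∈ H := fun n => digitSet_char n (hh n)
  refine ⟨sigma γ h, sigma_group γ h, lqc_sigma H hγH hhH, ?_, not_le_two hh⟩
  ext χ
  rw [chars_sigma hf H hγH hhH, mem_charGroup, ← eq_ch]

end Pool.Agent.V1140.ZT
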