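import Pool.Agent.V1140.ZT.Top

set_option autoImplicit false
set_option linter.style.haveILetI false

/-!
Mackey topologies on `ℤ`.
-/

namespace Pool.Agent.V1140.ZT

open Filter Topology Pointwise

/-- Mackey topologies on `ℤ`: locally quasi-convex group topologies `τ` which are finer than every
locally quasi-convex group topology with the same characters. (In Mathlib `τ ≤ σ` means that `τ` is
finer than `σ`.) -/
def IsMackey (τ : TopologicalSpace ℤ) : Prop :=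
  IsLQC τ ∧ ∀ σ : TopologicalSpace ℤ, @IsTopologicalAddGroup ℤ σ _ → IsLQC σ →
    chars σ = chars τ → τ ≤ σ

theorem zsmul_norm_nat_le (j : ℕ) (w : T) : ‖(j : ℤ) • w‖ ≤ j * ‖w‖ := by
  have := zsmul_norm_le (j : ℤ) w
  simpa using this

theorem gamma_mem_chars_sigma (γ h : ℕ → T) (i : ℕ) : ch (γ i) ∈ chars (sigma γ h) := by
  rw [mem_chars_iff _ (sigma_group γ h)]
  intro ε hε
  rw [mem_nhds_sigma]
  exact ⟨ε, hε, i + 1, fun k _ h2 => h2 i (by omega)⟩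

theorem chars_sigma {γ h : ℕ → T} (hf : Fast γ h) (H : AddSubgroup T)
    (hγ : Set.range γ = (H : Set T)) (hh : ∀ n, h n ∈ H) (χ : ℤ →+ T) :
    χ ∈ chars (sigma γ h) ↔ χ 1 ∈ H := by
  constructor
  · intro hχ
    rw [mem_chars_iff _ (sigma_group γ h)] at hχ
    have h1 := hχ (1 / 4) (by norm_num)
    rw [mem_nhds_sigma] at h1
    obtain ⟨δ, hδ, N, h2⟩ := h1
    have h3 := compat hf (x := χ 1) hδ (N := N) (fun k hk1 hk2 => by
      have := h2 k hk1 hk2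
      rw [Set.mem_ofPred_eq, eq_ch χ] at this
      simpa using this)
    refine (AddSubgroup.closure_le H).mpr ?_ h3
    rintro y (hy | ⟨n, rfl⟩)
    · rw [hγ] at hy; exact hy
    · exact hh n
  · intro hχ
    have h1 : χ 1 ∈ Set.range γ := by rw [hγ]; exact hχ
    obtain ⟨i, hi⟩ := h1
    rw [eq_ch χ, ← hi]
    exact gamma_mem_chars_sigma γ h i

theorem lqc_sigma {γ h : ℕ → T} (H : AddSubgroup T) (hγ : Set.range γ = (H : Set T))
    (hh : ∀ n, h n ∈ H) : IsLQC (sigma γ h) := by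
  intro U hU
  rw [mem_nhds_sigma] at hU
  obtain ⟨δ, hδ, N, hU⟩ := hU
  obtain ⟨m, hm⟩ := exists_nat_gt (1 / (4 * δ))
  have hm0 : 0 < m := by
    have : (0 : ℝ) < m := lt_trans (by positivity) hm
    exact_mod_cast this
  have hm' : (0 : ℝ) < m := by exact_mod_cast hm0
  have hmδ : 1 / (4 * m) ≤ δ := by
    rw [div_lt_iff₀ (by positivity)] at hm
    rw [div_le_iff₀ (by positivity)]
    linarith
  set A : Set ℤ := {k | ∀ j : ℕ, 1 ≤ j → j ≤ m →
    (∀ n, ‖(j : ℤ) • (k • h n)‖ ≤ 1 / 4) ∧ ∀ i < N, ‖(j : ℤ) • (k • γ i)‖ ≤ 1 / 4} with hA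
  have hHc : ∀ x ∈ H, ch x ∈ chars (sigma γ h) := by
    intro x hx
    have : x ∈ Set.range γ := by rw [hγ]; exact hx
    obtain ⟨i, rfl⟩ := this
    exact gamma_mem_chars_sigma γ h i
  refine ⟨A, ?_, ?_, ?_⟩
  · rw [mem_nhds_sigma]
    refine ⟨1 / (4 * m), by positivity, N, fun k h1 h2 j hj1 hj2 => ?_⟩
    have hb : ∀ w : T, ‖w‖ ≤ 1 / (4 * m) → ‖(j : ℤ) • w‖ ≤ 1 / 4 := by
      intro w hw
      refine (zsmul_norm_nat_le j w).trans ?_
      have hj : (j : ℝ) ≤ m := by exact_mod_cast hj2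
      calc (j : ℝ) * ‖w‖ ≤ m * (1 / (4 * m)) :=
            mul_le_mul hj hw (norm_nonneg _) hm'.le
        _ = 1 / 4 := by field_simp
    exact ⟨fun n => hb _ (h1 n), fun i hi => hb _ (h2 i hi)⟩
  · intro k hk
    refine hU k (fun n => ?_) (fun i hi => ?_)
    · exact (small_of_multiples hm0 (fun j h1 h2 => (hk j h1 h2).1 n)).trans hmδ
    · exact (small_of_multiples hm0 (fun j h1 h2 => (hk j h1 h2).2 i hi)).trans hmδ
  · intro x hx
    have hx' : ∃ j : ℕ, 1 ≤ j ∧ j ≤ m ∧ ((∃ n, 1 / 4 < ‖(j : ℤ) • (x • h n)‖) ∨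
        ∃ i < N, 1 / 4 < ‖(j : ℤ) • (x • γ i)‖) := by
      by_contra hcon
      apply hx
      intro j hj1 hj2
      constructor
      · intro n
        by_contra h1
        exact hcon ⟨j, hj1, hj2, Or.inl ⟨n, not_le.mp h1⟩⟩
      · intro i hi
        by_contra h1
        exact hcon ⟨j, hj1, hj2, Or.inr ⟨i, hi, not_le.mp h1⟩⟩
    obtain ⟨j, hj1, hj2, ⟨n, h1⟩ | ⟨i, hi, h1⟩⟩ := hx'
    · refine ⟨ch ((j : ℤ) • h n), hHc _ (H.zsmul_mem (hh n) _), fun a ha => ?_, ?_⟩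
      · rw [mem_TPlus, ch_apply, smul_comm]
        exact (ha j hj1 hj2).1 n
      · rw [mem_TPlus, ch_apply, smul_comm, not_le]
        exact h1
    · have hγi : γ i ∈ H := by
        have : γ i ∈ (H : Set T) := by rw [← hγ]; exact ⟨i, rfl⟩
        exact this
      refine ⟨ch ((j : ℤ) • γ i), hHc _ (H.zsmul_mem hγi _), fun a ha => ?_, ?_⟩
      · rw [mem_TPlus, ch_apply, smul_comm]
        exact (ha j hj1 hj2).2 i hi
      · rw [mem_TPlus, ch_apply, smul_comm, not_le]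
        exact h1

theorem Fast.tendsto {γ h : ℕ → T} (hf : Fast γ h) : Tendsto (fun n => ‖h n‖) atTop (𝓝 0) := by
  refine squeeze_zero (fun n => norm_nonneg _) (fun n => hf.le_eps n) ?_
  have : Tendsto (fun n : ℕ => (1 / 2 : ℝ) ^ (n + 1)) atTop (𝓝 0) :=
    (tendsto_pow_atTop_nhds_zero_of_lt_one (by norm_num) (by norm_num)).comp (tendsto_add_atTop_nat 1)
  exact this

theorem not_le_sigma {γ h : ℕ → T} (hf : Fast γ h) {τ : TopologicalSpace ℤ}
    (hpc : IsPrecompact τ) : ¬ τ ≤ sigma γ h := by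
  intro hle
  have hU : {k : ℤ | ∀ n, ‖k • h n‖ ≤ 1 / 8} ∈ @nhds ℤ (sigma γ h) 0 := by
    rw [mem_nhds_sigma]
    exact ⟨1 / 8, by norm_num, 0, fun k h1 _ => h1⟩
  have hU2 : {k : ℤ | ∀ n, ‖k • h n‖ ≤ 1 / 8} ∈ @nhds ℤ τ 0 := nhds_mono hle hU
  obtain ⟨F, hF, hFU⟩ := hpc _ hU2
  obtain ⟨B, hB⟩ : ∃ B : ℝ, ∀ f ∈ F, |(f : ℝ)| ≤ B := by
    obtain ⟨B, hB⟩ := (hF.image (fun f : ℤ => |(f : ℝ)|)).bddAbove
    exact ⟨B, fun f hf => hB ⟨f, hf, rfl⟩⟩
  obtain ⟨n, hn⟩ : ∃ n, ‖h n‖ * (|B| + 1) < 1 / 8 := by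
    have h1 : Tendsto (fun n => ‖h n‖ * (|B| + 1)) atTop (𝓝 (0 * (|B| + 1))) :=
      hf.tendsto.mul_const _
    rw [zero_mul] at h1
    exact (h1.eventually (gt_mem_nhds (by norm_num : (0 : ℝ) < 1 / 8))).exists
  obtain ⟨k, hk⟩ := exists_big (hf.ne n)
  have hkm : k ∈ F + {k : ℤ | ∀ n, ‖k • h n‖ ≤ 1 / 8} := by rw [hFU]; trivial
  obtain ⟨f, hf', v, hv, rfl⟩ := Set.mem_add.mp hkm
  rw [add_smul] at hk
  have h1 := norm_add_le (f • h n) (v • h n)
  have h2 : ‖v • h n‖ ≤ 1 / 8 := hv n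
  have h3 : ‖f • h n‖ < 1 / 8 := by
    refine lt_of_le_of_lt (zsmul_norm_le f (h n)) ?_
    refine lt_of_le_of_lt ?_ hn
    rw [mul_comm]
    refine mul_le_mul_of_nonneg_left ?_ (norm_nonneg _)
    have := hB f hf'
    have := le_abs_self B
    linarith
  linarith

/-- **No metrizable precompact topology on `ℤ` is Mackey.** -/
theorem not_mackey {τ : TopologicalSpace ℤ} (hg : @IsTopologicalAddGroup ℤ τ _)
    (hm : @TopologicalSpace.MetrizableSpace ℤ τ) (hpc : IsPrecompact τ) : ¬ IsMackey τ := by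
  rintro ⟨hl, hM⟩
  have hT1 : @T1Space ℤ τ := by
    letI := τ; infer_instance
  have hfc : @FirstCountableTopology ℤ τ := by
    letI := τ; infer_instance
  set H := charGroup τ hg with hH
  have hsmall := small_chars hg hT1 hl
  have hcount := chars_countable hg hfc hpc
  have hne : {x : T | ch x ∈ chars τ}.Nonempty := ⟨0, H.zero_mem⟩
  obtain ⟨γ, hγ⟩ := hcount.exists_eq_range hne
  obtain ⟨h, hf, hh⟩ := exists_fast γ (fun _ => {x : T | ch x ∈ chars τ}) (fun _ => hsmall)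
  have hγH : Set.range γ = (H : Set T) := hγ.symm
  have hhH : ∀ n, h n ∈ H := hh
  refine not_le_sigma hf hpc (hM _ (sigma_group γ h) (lqc_sigma H hγH hhH) ?_)
  ext χ
  rw [chars_sigma hf H hγH hhH, mem_charGroup, ← eq_ch]

end Pool.Agent.V1140.ZT
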