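import Pool.Agent.V1140.ZT.Mackey

set_option autoImplicit false
set_option linter.style.haveILetI false

/-!
The linear topologies `lam b`, the topologies `tau c` and their supremum `sup b`.
-/

namespace Pool.Agent.V1140.ZT

open Filter Topology

/-- D-sequences: `b 0 = 1`, all `b n` are positive, `b n` divides `b (n + 1)` and is different from
it. -/
structure IsDSeq (b : ℕ → ℕ) : Prop where
  zero : b 0 = 1
  pos : ∀ n, 0 < b n
  dvd : ∀ n, b n ∣ b (n + 1)
  ne : ∀ n, b n ≠ b (n + 1)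

/-- D-sequences whose ratios `b (n + 1) / b n` tend to infinity. -/
def IsDInf (b : ℕ → ℕ) : Prop := IsDSeq b ∧ Tendsto (fun n => b (n + 1) / b n) atTop atTop

/-- The linear topology on `ℤ` with the neighbourhood base `b n ℤ` at zero: the coarsest topology
for which all the maps from `ℤ` to the discrete rings `ℤ / b n` are continuous
(see `mem_nhds_lam`). -/
@[reducible] def lam (b : ℕ → ℕ) : TopologicalSpace ℤ :=
  ⨅ n, TopologicalSpace.induced (fun k : ℤ => (k : ZMod (b n))) ⊥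

/-- The topology on `ℤ` of uniform convergence on the characters `k ↦ k / c n`, `n ≥ 1`
(see `mem_nhds_unif`). -/
@[reducible] noncomputable def tau (c : ℕ → ℕ) : TopologicalSpace ℤ :=
  unif fun n => ((1 / (c (n + 1) : ℝ) : ℝ) : T)

/-- The supremum `s_b` of the topologies `tau c`, for the sequences `c` in `D_∞` with
`lam c = lam b`. (In Mathlib, finer topologies are smaller, so it is an infimum.) -/
@[reducible] noncomputable def supTau (b : ℕ → ℕ) : TopologicalSpace ℤ :=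
  ⨅ c : {c : ℕ → ℕ // IsDInf c ∧ lam c = lam b}, tau c

theorem IsDSeq.dvd_of_le {b : ℕ → ℕ} (hb : IsDSeq b) {m n : ℕ} (h : m ≤ n) : b m ∣ b n := by
  induction n, h using Nat.le_induction with
  | base => exact dvd_rfl
  | succ n _ ih => exact ih.trans (hb.dvd n)

theorem mem_nhds_lam {b : ℕ → ℕ} (hb : IsDSeq b) (U : Set ℤ) :
    U ∈ @nhds ℤ (lam b) 0 ↔ ∃ n, ∀ k : ℤ, (b n : ℤ) ∣ k → k ∈ U := by
  have e : @nhds ℤ (lam b) 0 = ⨅ n, 𝓟 {k : ℤ | (b n : ℤ) ∣ k} := by
    rw [lam, nhds_iInf]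
    congr 1
    ext1 n
    rw [nhds_induced]
    have h1 : @nhds (ZMod (b n)) ⊥ ((0 : ℤ) : ZMod (b n)) = pure 0 := by
      rw [Int.cast_zero]
      letI : TopologicalSpace (ZMod (b n)) := ⊥
      haveI : DiscreteTopology (ZMod (b n)) := ⟨rfl⟩
      rw [nhds_discrete]
    rw [h1, comap_pure]
    congr 1
    ext k
    simp only [Set.mem_preimage, Set.mem_singleton_iff, Set.mem_ofPred_eq]
    exact ZMod.intCast_zmod_eq_zero_iff_dvd k (b n)
  rw [e, mem_iInf_of_directed]
  · simp only [mem_principal]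
    rfl
  · intro m n
    refine ⟨max m n, ?_, ?_⟩
    · refine principal_mono.mpr ?_
      intro k hk
      have h1 : ((b m : ℕ) : ℤ) ∣ (b (max m n) : ℕ) := by
        exact_mod_cast hb.dvd_of_le (le_max_left m n)
      exact h1.trans hk
    · refine principal_mono.mpr ?_
      intro k hk
      have h1 : ((b n : ℕ) : ℤ) ∣ (b (max m n) : ℕ) := by
        exact_mod_cast hb.dvd_of_le (le_max_right m n)
      exact h1.trans hk

theorem lam_group (b : ℕ → ℕ) : @IsTopologicalAddGroup ℤ (lam b) _ := by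
  refine topologicalAddGroup_iInf fun n => ?_
  letI : TopologicalSpace (ZMod (b n)) := ⊥
  haveI : DiscreteTopology (ZMod (b n)) := ⟨rfl⟩
  exact topologicalAddGroup_induced (Int.castAddHom (ZMod (b n)))

theorem supTau_group (b : ℕ → ℕ) : @IsTopologicalAddGroup ℤ (supTau b) _ :=
  topologicalAddGroup_iInf fun _ => unif_group _

theorem nhds_supTau_le (b : ℕ → ℕ) (c : ℕ → ℕ) (hc : IsDInf c ∧ lam c = lam b) :
    @nhds ℤ (supTau b) 0 ≤ @nhds ℤ (tau c) 0 := by
  rw [supTau, nhds_iInf]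
  exact iInf_le (fun c : {c : ℕ → ℕ // IsDInf c ∧ lam c = lam b} => @nhds ℤ (tau c) 0) ⟨c, hc⟩

/-- neighbourhoods of zero for the supremum -/
theorem mem_nhds_supTau (b : ℕ → ℕ) {U : Set ℤ} (hU : U ∈ @nhds ℤ (supTau b) 0) :
    ∃ F : Finset (ℕ → ℕ), (∀ c ∈ F, IsDInf c ∧ lam c = lam b) ∧ ∃ δ > 0,
      ∀ k : ℤ, (∀ c ∈ F, ∀ n, ‖k • ((1 / (c (n + 1) : ℝ) : ℝ) : T)‖ ≤ δ) → k ∈ U := by
  classical
  rw [supTau, nhds_iInf, mem_iInf] at hU
  obtain ⟨I, hI, V, hV, rfl⟩ := hU
  have h1 : ∀ i : I, ∃ δ > 0, ∀ k : ℤ,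
      (∀ n, ‖k • ((1 / (i.1.1 (n + 1) : ℝ) : ℝ) : T)‖ ≤ δ) → k ∈ V i := fun i =>
    (mem_nhds_unif _ _).mp (hV i)
  choose d hd0 hd using h1
  haveI : Finite I := hI
  haveI : Fintype I := Fintype.ofFinite I
  refine ⟨(Finset.univ : Finset I).image (fun i => i.1.1), ?_, ?_⟩
  · intro c hc
    obtain ⟨i, -, rfl⟩ := Finset.mem_image.mp hc
    exact i.1.2
  · obtain ⟨δ, hδ0, hδ⟩ : ∃ δ > 0, ∀ i : I, δ ≤ d i := by
      by_cases hne : Nonempty I
      · refine ⟨Finset.univ.inf' Finset.univ_nonempty d, ?_, fun i =>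
          Finset.inf'_le _ (Finset.mem_univ i)⟩
        rw [gt_iff_lt, Finset.lt_inf'_iff]
        exact fun i _ => hd0 i
      · exact ⟨1, one_pos, fun i => (hne ⟨i⟩).elim⟩
    refine ⟨δ, hδ0, fun k hk => ?_⟩
    rw [Set.mem_iInter]
    intro i
    refine hd i k fun n => ?_
    exact (hk i.1.1 (Finset.mem_image_of_mem _ (Finset.mem_univ i)) n).trans (hδ i)

/-- a principle on sums of positive parts -/
theorem sum_principle {n : ℕ} (k : ℕ → ℤ) (t : ℕ → ℝ) (x : T) (B : ℝ) (hB : B ≤ 1 / 4)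
    (hB0 : 0 ≤ B) (ht0 : ∀ j < n, 0 ≤ t j) (htB : ∀ j < n, t j ≤ B) (hk : ∀ j < n, k j • x = (t j : T))
    (hs : ∀ m ≤ n, ‖(∑ j ∈ Finset.range m, k j) • x‖ ≤ B) :
    ∑ j ∈ Finset.range n, t j ≤ B := by
  have key : ∀ m ≤ n, ∑ j ∈ Finset.range m, t j ≤ B ∧ 0 ≤ ∑ j ∈ Finset.range m, t j ∧
      (∑ j ∈ Finset.range m, k j) • x = ((∑ j ∈ Finset.range m, t j : ℝ) : T) := by
    intro m
    induction m with
    | zero => intro _; simp [hB0]
    | succ m ih =>
      intro hm
      obtain ⟨h1, h2, h3⟩ := ih (by omega)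
      have h4 : (∑ j ∈ Finset.range (m + 1), k j) • x =
          ((∑ j ∈ Finset.range (m + 1), t j : ℝ) : T) := by
        rw [Finset.sum_range_succ, Finset.sum_range_succ, add_smul, h3, hk m (by omega),
          AddCircle.coe_add]
      have h5 : 0 ≤ ∑ j ∈ Finset.range (m + 1), t j := by
        rw [Finset.sum_range_succ]
        have := ht0 m (by omega)
        linarith
      have h6 : ∑ j ∈ Finset.range (m + 1), t j ≤ 1 / 2 := by
        rw [Finset.sum_range_succ]
        have := htB m (by omega)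
        linarith
      have h7 := hs (m + 1) hm
      rw [h4, norm_coe_of_abs_le (by rw [abs_of_nonneg h5]; exact h6), abs_of_nonneg h5] at h7
      exact ⟨h7, h5, h4⟩
  exact (key n le_rfl).1

end Pool.Agent.V1140.ZT
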