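import Pool.Agent.V1140.ZT.Compat

set_option autoImplicit false
set_option linter.style.haveILetI false

/-!
Group topologies on `ℤ`: characters, quasi-convex sets, precompactness.
-/

namespace Pool.Agent.V1140.ZT

open Filter Topology Pointwise

/-- The image of the interval `[-1/4, 1/4]` in the circle `ℝ/ℤ`. -/
def TPlus : Set T := (fun t : ℝ => (t : T)) '' Set.Icc (-1 / 4) (1 / 4)

/-- The characters (continuous homomorphisms to the circle) of a topology on `ℤ`. -/
def chars (τ : TopologicalSpace ℤ) : Set (ℤ →+ T) := {χ | Continuous[τ, inferInstance] χ}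

/-- Quasi-convex subsets of `ℤ` for the topology `τ`. -/
def IsQuasiConvex (τ : TopologicalSpace ℤ) (A : Set ℤ) : Prop :=
  ∀ x ∉ A, ∃ χ ∈ chars τ, (∀ a ∈ A, χ a ∈ TPlus) ∧ χ x ∉ TPlus

/-- Locally quasi-convex topologies on `ℤ`: zero has a neighbourhood base of quasi-convex sets. -/
def IsLQC (τ : TopologicalSpace ℤ) : Prop :=
  ∀ U ∈ @nhds ℤ τ 0, ∃ A ∈ @nhds ℤ τ 0, A ⊆ U ∧ IsQuasiConvex τ A

/-- Precompact topologies on `ℤ`: for every neighbourhood `U` of zero there is a finite set `F` such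
that `F + U` is everything. -/
def IsPrecompact (τ : TopologicalSpace ℤ) : Prop :=
  ∀ U ∈ @nhds ℤ τ 0, ∃ F : Set ℤ, F.Finite ∧ F + U = Set.univ

theorem mem_TPlus {t : T} : t ∈ TPlus ↔ ‖t‖ ≤ 1 / 4 := by
  constructor
  · rintro ⟨r, hr, rfl⟩
    refine (norm_coe_le r).trans ?_
    rw [abs_le]
    constructor <;> linarith [hr.1, hr.2]
  · intro h
    obtain ⟨r, hr1, hr2⟩ := exists_lift t
    rw [← hr2, abs_le] at h
    exact ⟨r, ⟨by linarith [h.1], h.2⟩, hr1⟩

/-- the character with the value `x` at `1` -/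
noncomputable def ch (x : T) : ℤ →+ T := zmultiplesHom T x

@[simp] theorem ch_apply (x : T) (k : ℤ) : ch x k = k • x := rfl

theorem eq_ch (χ : ℤ →+ T) : χ = ch (χ 1) := by
  ext; simp

theorem norm_smul_nat_eq {w : T} (j : ℕ) (hw : j * ‖w‖ ≤ 1 / 2) : ‖(j : ℤ) • w‖ = j * ‖w‖ := by
  obtain ⟨r, hr1, hr2⟩ := exists_lift w
  have e : (j : ℤ) • w = ((j * r : ℝ) : T) := by
    rw [← hr1, ← AddCircle.coe_zsmul]; simp
  have h1 : |(j : ℝ) * r| = j * ‖w‖ := by rw [abs_mul, hr2, Nat.abs_cast]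
  rw [e, norm_coe_of_abs_le (by rw [h1]; exact hw), h1]

/-- small multiples -/
theorem small_of_multiples {w : T} {m : ℕ} (hm : 0 < m)
    (h : ∀ j : ℕ, 1 ≤ j → j ≤ m → ‖(j : ℤ) • w‖ ≤ 1 / 4) : ‖w‖ ≤ 1 / (4 * m) := by
  have key : ∀ j : ℕ, 1 ≤ j → j ≤ m → j * ‖w‖ ≤ 1 / 4 := by
    intro j hj
    induction j, hj using Nat.le_induction with
    | base =>
      intro _
      have := h 1 le_rfl hm
      simpa using this
    | succ j hj ih =>
      intro hjm
      have h1 := ih (by omega)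
      have h2 := h (j + 1) (by omega) hjm
      have h3 : ‖w‖ ≤ 1 / 4 := by
        have := h 1 le_rfl hm
        simpa using this
      have h4 : ((j + 1 : ℕ) : ℝ) * ‖w‖ ≤ 1 / 2 := by
        push_cast; linarith
      rw [norm_smul_nat_eq (j + 1) h4] at h2
      exact h2
  have h1 := key m hm le_rfl
  have hm' : (0 : ℝ) < m := by exact_mod_cast hm
  rw [le_div_iff₀ (by positivity)]
  linarith

/-- no small subgroups -/
theorem exists_big {z : T} (hz : z ≠ 0) : ∃ k : ℤ, 1 / 4 ≤ ‖k • z‖ := by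
  by_contra hcon
  push Not at hcon
  have hpos : 0 < ‖z‖ := norm_pos_iff.mpr hz
  obtain ⟨m, hm⟩ := exists_nat_gt (1 / (4 * ‖z‖))
  have hm0 : 0 < m := by
    have : (0 : ℝ) < m := lt_trans (by positivity) hm
    exact_mod_cast this
  have h1 := small_of_multiples hm0 (w := z) (fun j _ _ => (hcon j).le)
  have hm' : (0 : ℝ) < m := by exact_mod_cast hm0
  rw [div_lt_iff₀ (by positivity)] at hm
  rw [le_div_iff₀ (by positivity)] at h1
  linarith

theorem finite_of_sep {X α : Type} [PseudoMetricSpace X] [CompactSpace X] (S : Set α) (f : α → X)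
    (ε : ℝ) (hε : 0 < ε) (h : ∀ x ∈ S, ∀ y ∈ S, dist (f x) (f y) < ε → x = y) : S.Finite := by
  classical
  by_contra hinf
  have hinf : S.Infinite := hinf
  obtain ⟨t, -, htf, hcov⟩ := Metric.finite_approx_of_totallyBounded
    (isCompact_univ (X := X)).totallyBounded (ε / 2) (by linarith)
  have hc : ∀ y : X, ∃ c ∈ t, dist y c < ε / 2 := by
    intro y
    have := hcov (Set.mem_univ y)
    simpa using this
  choose c hct hc using hc
  obtain ⟨x, hx, y, hy, hxy, hxy2⟩ := hinf.exists_ne_map_eq_of_mapsTo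
    (f := fun x => c (f x)) (t := t) (fun x _ => hct _) htf
  refine hxy (h x hx y hy ?_)
  have h1 := hc (f x)
  have h2 := hc (f y)
  have h3 : c (f x) = c (f y) := hxy2
  rw [← h3] at h2
  calc dist (f x) (f y) ≤ dist (f x) (c (f x)) + dist (f y) (c (f x)) := dist_triangle_right _ _ _
    _ < ε := by linarith

section

variable {τ : TopologicalSpace ℤ}

/-- The polar of a neighbourhood of zero in a precompact topology is finite. -/
theorem polar_finite (hg : @IsTopologicalAddGroup ℤ τ _) (hpc : IsPrecompact τ) {U : Set ℤ}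
    (hU : U ∈ @nhds ℤ τ 0) : {x : T | ∀ k ∈ U, ‖k • x‖ ≤ 1 / 4}.Finite := by
  classical
  letI := τ
  haveI := hg
  have hV : ∃ V ∈ 𝓝 (0 : ℤ), ∀ v ∈ V, ∀ j : ℕ, 1 ≤ j → j ≤ 4 → (j : ℤ) * v ∈ U := by
    refine ⟨⋂ j ∈ Finset.Icc 1 4, (fun v : ℤ => j • v) ⁻¹' U, ?_, ?_⟩
    · rw [Filter.biInter_finset_mem]
      intro j _
      have : Tendsto (fun v : ℤ => j • v) (𝓝 0) (𝓝 (j • (0 : ℤ))) :=
        (continuous_nsmul j).tendsto 0
      rw [smul_zero] at this
      exact this hU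
    · intro v hv j hj1 hj2
      rw [Set.mem_iInter₂] at hv
      have := hv j (Finset.mem_Icc.mpr ⟨hj1, hj2⟩)
      simpa using this
  obtain ⟨V, hV, hVU⟩ := hV
  obtain ⟨F, hF, hFV⟩ := hpc V hV
  haveI : Fintype F := hF.fintype
  refine finite_of_sep (X := F → T) _ (fun x f => (f : ℤ) • x) (1 / 8) (by norm_num) ?_
  intro x hx y hy hxy
  by_contra hne
  have hz : x - y ≠ 0 := sub_ne_zero.mpr hne
  obtain ⟨k, hk⟩ := exists_big hz
  have hkm : k ∈ F + V := by rw [hFV]; trivial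
  obtain ⟨f, hf, v, hv, rfl⟩ := Set.mem_add.mp hkm
  have hsm : ∀ w : T, (∀ k ∈ U, ‖k • w‖ ≤ 1 / 4) → ‖v • w‖ ≤ 1 / 16 := by
    intro w hw
    have := small_of_multiples (w := v • w) (m := 4) (by norm_num) (fun j hj1 hj2 => by
      rw [← mul_smul]
      exact hw _ (hVU v hv j hj1 hj2))
    refine this.trans (by norm_num)
  have h1 := hsm x hx
  have h2 := hsm y hy
  have h3 : ‖(f : ℤ) • (x - y)‖ < 1 / 8 := by
    have := (dist_le_pi_dist (fun f : F => (f : ℤ) • x) (fun f : F => (f : ℤ) • y) ⟨f, hf⟩).trans_lt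
      hxy
    rw [dist_eq_norm] at this
    rwa [smul_sub]
  have h4 : (f + v) • (x - y) = f • (x - y) + (v • x - v • y) := by
    rw [add_smul, smul_sub v]
  rw [h4] at hk
  have h5 := norm_add_le (f • (x - y)) (v • x - v • y)
  have h6 := norm_sub_le (v • x) (v • y)
  linarith

/-- The characters of a metrizable precompact topology are countable. -/
theorem chars_countable (hg : @IsTopologicalAddGroup ℤ τ _)
    (hfc : @FirstCountableTopology ℤ τ) (hpc : IsPrecompact τ) :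
    {x : T | ch x ∈ chars τ}.Countable := by
  letI := τ
  haveI := hg
  haveI := hfc
  obtain ⟨u, hu⟩ := (𝓝 (0 : ℤ)).exists_antitone_basis
  have hsub : {x : T | ch x ∈ chars τ} ⊆ ⋃ n, {x : T | ∀ k ∈ u n, ‖k • x‖ ≤ 1 / 4} := by
    intro x hx
    have hc : Continuous (ch x) := hx
    have h1 : (ch x) ⁻¹' (Metric.closedBall 0 (1 / 4)) ∈ 𝓝 (0 : ℤ) := by
      apply hc.continuousAt
      rw [map_zero]
      exact Metric.closedBall_mem_nhds _ (by norm_num)
    obtain ⟨n, hn⟩ := hu.1.mem_iff.mp h1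
    rw [Set.mem_iUnion]
    refine ⟨n, fun k hk => ?_⟩
    have := hn.2 hk
    simpa using this
  refine Set.Countable.mono hsub (Set.countable_iUnion fun n => ?_)
  exact (polar_finite hg hpc (hu.1.mem_of_mem trivial)).countable

/-- The group of the values at `1` of the characters. -/
def charGroup (τ : TopologicalSpace ℤ) (_ : @IsTopologicalAddGroup ℤ τ _) : AddSubgroup T where
  carrier := {x | ch x ∈ chars τ}
  add_mem' {x y} hx hy := by
    letI := τ
    have h1 : Continuous (ch x) := hx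
    have h2 : Continuous (ch y) := hy
    have h3 : (ch (x + y) : ℤ → T) = fun k => ch x k + ch y k := by
      ext k; simp
    show Continuous (ch (x + y))
    rw [h3]
    exact h1.add h2
  zero_mem' := by
    letI := τ
    have h3 : (ch 0 : ℤ → T) = fun _ => 0 := by
      ext k; simp
    show Continuous (ch 0)
    rw [h3]
    exact continuous_const
  neg_mem' {x} hx := by
    letI := τ
    have h1 : Continuous (ch x) := hx
    have h3 : (ch (-x) : ℤ → T) = fun k => - ch x k := by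
      ext k; simp
    show Continuous (ch (-x))
    rw [h3]
    exact h1.neg

theorem mem_charGroup {hg : @IsTopologicalAddGroup ℤ τ _} {x : T} :
    x ∈ charGroup τ hg ↔ ch x ∈ chars τ := Iff.rfl

/-- Hausdorff locally quasi-convex topologies have small nonzero characters. -/
theorem small_chars (hg : @IsTopologicalAddGroup ℤ τ _) (hT : @T1Space ℤ τ) (hl : IsLQC τ) :
    ∀ ε > 0, ∃ a ∈ {x : T | ch x ∈ chars τ}, a ≠ 0 ∧ ‖a‖ ≤ ε := by
  letI := τ
  haveI := hg
  haveI := hT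
  intro ε hε
  by_contra hcon
  push Not at hcon
  have hfin : Set.Finite (charGroup τ hg : Set T) := by
    refine finite_of_sep (X := T) _ id ε hε ?_
    intro x hx y hy hxy
    by_contra hne
    have h1 := hcon (x - y) ((charGroup τ hg).sub_mem hx hy) (sub_ne_zero.mpr hne)
    rw [id, id, dist_eq_norm] at hxy
    linarith
  haveI : Finite (charGroup τ hg) := hfin
  set m := Nat.card (charGroup τ hg) with hm
  have hm0 : 0 < m := Nat.card_pos
  have hU : ({(m : ℤ)}ᶜ : Set ℤ) ∈ 𝓝 (0 : ℤ) := by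
    refine isOpen_compl_singleton.mem_nhds ?_
    simp only [Set.mem_compl_iff, Set.mem_singleton_iff]
    intro h
    have : m = 0 := by exact_mod_cast h.symm
    omega
  obtain ⟨A, hA, hAU, hq⟩ := hl _ hU
  have hmA : (m : ℤ) ∉ A := fun h => hAU h rfl
  obtain ⟨χ, hχ, -, hχ2⟩ := hq _ hmA
  apply hχ2
  rw [mem_TPlus, eq_ch χ, ch_apply]
  have h1 : χ 1 ∈ charGroup τ hg := by
    rw [mem_charGroup, ← eq_ch]; exact hχ
  have h2 : (m : ℤ) • χ 1 = 0 := by
    have h3 : m • (⟨χ 1, h1⟩ : charGroup τ hg) = 0 := card_nsmul_eq_zero'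
    have h4 : ((m • (⟨χ 1, h1⟩ : charGroup τ hg) : charGroup τ hg) : T) = 0 := by rw [h3]; rfl
    rw [natCast_zsmul]
    exact h4
  rw [h2, norm_zero]
  norm_num

end

/-! ### The topologies of uniform convergence -/

/-- The topology on `ℤ` of uniform convergence on the characters `h n`. -/
@[reducible] noncomputable def unif (h : ℕ → T) : TopologicalSpace ℤ :=
  TopologicalSpace.induced (fun k : ℤ => (UniformFun.ofFun (fun n => k • h n) : UniformFun ℕ T))
    inferInstance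

/-- The topology on `ℤ` of pointwise convergence on the characters `γ n`. -/
@[reducible] noncomputable def ptw (γ : ℕ → T) : TopologicalSpace ℤ :=
  TopologicalSpace.induced (fun k : ℤ => fun n => k • γ n) inferInstance

theorem unif_group (h : ℕ → T) : @IsTopologicalAddGroup ℤ (unif h) _ := by
  let φ : ℤ →+ (UniformFun ℕ T) :=
    { toFun := fun k => UniformFun.ofFun (fun n => k • h n)
      map_zero' := by
        have : (fun n => (0 : ℤ) • h n) = 0 := by ext n; simp
        rw [this]; rfl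
      map_add' := fun a b => by
        have : (fun n => (a + b) • h n) = (fun n => a • h n) + (fun n => b • h n) := by
          ext n; simp [add_smul]
        rw [this]; rfl }
  exact topologicalAddGroup_induced φ

theorem ptw_group (γ : ℕ → T) : @IsTopologicalAddGroup ℤ (ptw γ) _ := by
  let φ : ℤ →+ (ℕ → T) :=
    { toFun := fun k => fun n => k • γ n
      map_zero' := by ext n; simp
      map_add' := fun a b => by ext n; simp [add_smul] }
  exact topologicalAddGroup_induced φ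

theorem mem_nhds_unif (h : ℕ → T) (U : Set ℤ) :
    U ∈ @nhds ℤ (unif h) 0 ↔ ∃ δ > 0, ∀ k : ℤ, (∀ n, ‖k • h n‖ ≤ δ) → k ∈ U := by
  have e : (UniformFun.ofFun (fun n => (0 : ℤ) • h n) : UniformFun ℕ T) = 0 := by
    have : (fun n => (0 : ℤ) • h n) = 0 := by ext n; simp
    rw [this]; rfl
  rw [unif, nhds_induced, e,
    ((UniformFun.hasBasis_nhds_zero_of_basis (α := ℕ) (G := T)
      Metric.nhds_basis_closedBall).comap _).mem_iff]
  constructor
  · rintro ⟨δ, hδ, hU⟩
    refine ⟨δ, hδ, fun k hk => hU ?_⟩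
    simp only [Set.mem_preimage, Set.mem_ofPred_eq]
    intro n
    rw [mem_closedBall_zero_iff]
    exact hk n
  · rintro ⟨δ, hδ, hU⟩
    refine ⟨δ, hδ, fun k hk => hU k fun n => ?_⟩
    simp only [Set.mem_preimage, Set.mem_ofPred_eq] at hk
    have := hk n
    rw [mem_closedBall_zero_iff] at this
    exact this

theorem mem_nhds_ptw (γ : ℕ → T) (U : Set ℤ) :
    U ∈ @nhds ℤ (ptw γ) 0 ↔ ∃ δ > 0, ∃ N : ℕ, ∀ k : ℤ, (∀ i < N, ‖k • γ i‖ ≤ δ) → k ∈ U := by
  have e : (fun n => (0 : ℤ) • γ n) = (0 : ℕ → T) := by ext n; simp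
  rw [ptw, nhds_induced, e, mem_comap]
  constructor
  · rintro ⟨W, hW, hWU⟩
    rw [nhds_pi, Filter.mem_pi] at hW
    obtain ⟨I, hI, t, ht, htW⟩ := hW
    have h1 : ∀ i, ∃ δ > 0, Metric.closedBall (0 : T) δ ⊆ t i := fun i =>
      Metric.nhds_basis_closedBall.mem_iff.mp (ht i)
    choose d hd0 hd using h1
    obtain ⟨N, hN⟩ : ∃ N, ∀ i ∈ I, i < N := by
      obtain ⟨N, hN⟩ := hI.bddAbove
      exact ⟨N + 1, fun i hi => Nat.lt_succ_of_le (hN hi)⟩
    obtain ⟨δ, hδ0, hδ⟩ : ∃ δ > 0, ∀ i < N, δ ≤ d i := by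
      clear hN
      induction N with
      | zero => exact ⟨1, one_pos, fun i hi => by omega⟩
      | succ N ih =>
        obtain ⟨δ, h1, h2⟩ := ih
        refine ⟨min δ (d N), lt_min h1 (hd0 N), fun i hi => ?_⟩
        rcases Nat.lt_succ_iff_lt_or_eq.mp hi with h3 | h3
        · exact (min_le_left _ _).trans (h2 i h3)
        · rw [h3]; exact min_le_right _ _
    refine ⟨δ, hδ0, N, fun k hk => hWU (htW ?_)⟩
    intro i hi
    apply hd i
    rw [mem_closedBall_zero_iff]
    exact (hk i (hN i hi)).trans (hδ i (hN i hi))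
  · rintro ⟨δ, hδ, N, hU⟩
    refine ⟨Set.pi (Set.Iio N) (fun _ => Metric.closedBall 0 δ), ?_, fun k hk => ?_⟩
    · refine set_pi_mem_nhds (Set.finite_Iio N) fun i _ => Metric.closedBall_mem_nhds _ hδ
    · refine hU k fun i hi => ?_
      have := hk i hi
      rw [mem_closedBall_zero_iff] at this
      exact this

theorem mem_nhds_inf (σ τ : TopologicalSpace ℤ) (U : Set ℤ) :
    U ∈ @nhds ℤ (σ ⊓ τ) 0 ↔ ∃ A ∈ @nhds ℤ σ 0, ∃ B ∈ @nhds ℤ τ 0, A ∩ B ⊆ U := by
  have e : @nhds ℤ (σ ⊓ τ) 0 = @nhds ℤ σ 0 ⊓ @nhds ℤ τ 0 := @nhds_inf ℤ σ τ 0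
  exact (iff_of_eq (congrArg (fun F : Filter ℤ => U ∈ F) e)).trans Filter.mem_inf_iff_superset

/-- the join of the two topologies -/
@[reducible] noncomputable def sigma (γ h : ℕ → T) : TopologicalSpace ℤ := unif h ⊓ ptw γ

theorem sigma_group (γ h : ℕ → T) : @IsTopologicalAddGroup ℤ (sigma γ h) _ :=
  topologicalAddGroup_inf (unif_group h) (ptw_group γ)

theorem mem_nhds_sigma (γ h : ℕ → T) (U : Set ℤ) :
    U ∈ @nhds ℤ (sigma γ h) 0 ↔ ∃ δ > 0, ∃ N : ℕ, ∀ k : ℤ, (∀ n, ‖k • h n‖ ≤ δ) →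
      (∀ i < N, ‖k • γ i‖ ≤ δ) → k ∈ U := by
  refine (mem_nhds_inf (unif h) (ptw γ) U).trans ?_
  constructor
  · rintro ⟨A, hA, B, hB, hAB⟩
    obtain ⟨δ, hδ, h1⟩ := (mem_nhds_unif h A).mp hA
    obtain ⟨δ', hδ', N, h2⟩ := (mem_nhds_ptw γ B).mp hB
    refine ⟨min δ δ', lt_min hδ hδ', N, fun k hk1 hk2 => hAB ⟨h1 k fun n => ?_, h2 k fun i hi => ?_⟩⟩
    · exact (hk1 n).trans (min_le_left _ _)
    · exact (hk2 i hi).trans (min_le_right _ _)
  · rintro ⟨δ, hδ, N, h1⟩
    refine ⟨{k | ∀ n, ‖k • h n‖ ≤ δ}, (mem_nhds_unif h _).mpr ⟨δ, hδ, fun k hk => hk⟩,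
      {k | ∀ i < N, ‖k • γ i‖ ≤ δ}, (mem_nhds_ptw γ _).mpr ⟨δ, hδ, N, fun k hk => hk⟩, ?_⟩
    rintro k ⟨hk1, hk2⟩
    exact h1 k hk1 hk2

/-- continuity of characters at zero -/
theorem mem_chars_iff (τ : TopologicalSpace ℤ) (hg : @IsTopologicalAddGroup ℤ τ _) (χ : ℤ →+ T) :
    χ ∈ chars τ ↔ ∀ ε > 0, {k : ℤ | ‖χ k‖ ≤ ε} ∈ @nhds ℤ τ 0 := by
  letI := τ
  haveI := hg
  have h0 : χ ∈ chars τ ↔ Continuous χ := Iff.rfl
  rw [h0]
  constructor
  · intro hc ε hε
    have h1 : χ ⁻¹' (Metric.closedBall 0 ε) ∈ 𝓝 (0 : ℤ) := by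
      apply hc.continuousAt
      rw [map_zero]
      exact Metric.closedBall_mem_nhds _ hε
    filter_upwards [h1] with k hk
    simpa using hk
  · intro h
    refine continuous_of_continuousAt_zero χ ?_
    rw [ContinuousAt, map_zero]
    refine Metric.nhds_basis_closedBall.tendsto_right_iff.mpr fun ε hε => ?_
    filter_upwards [h ε hε] with k hk
    simpa using hk

end Pool.Agent.V1140.ZT
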